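import Pool.Agent.Q97.MM.Cvg

/-!
# The energy of the derivative on the critical line
-/

set_option autoImplicit false

open MeasureTheory Filter Topology Complex Set FourierTransform ComplexConjugate
open Q97.MM

namespace Q63.LG

noncomputable section

variable {F : ℂ → ℂ} {α β M δ : ℝ}

theorem ln_deriv (hF : Differentiable ℂ F) (c y : ℝ) :
    HasDerivAt (ln F c) (I * deriv F (c + y * I)) y := by
  have h1 : HasDerivAt (fun y : ℝ => (c : ℂ) + y * I) I y := by
    have h2 : HasDerivAt (fun y : ℝ => (y : ℂ)) 1 y := Complex.ofRealCLM.hasDerivAt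
    have h3 := (h2.mul_const I).const_add (c : ℂ)
    simpa using h3
  have h4 := ((hF _).hasDerivAt (x := (c : ℂ) + y * I)).comp y h1
  rw [mul_comm]
  exact h4

/-- The Cauchy estimate. -/
theorem deriv_bd (hF : Differentiable ℂ F) (hδ : 0 < δ) (hM : 0 ≤ M)
    (hbd : ∀ x y : ℝ, α ≤ x → x ≤ β → ‖F (x + y * I)‖ ≤ M * Real.exp (-δ * y ^ 2))
    {c ρ : ℝ} (hρ : 0 < ρ) (h1 : α ≤ c - ρ) (h2 : c + ρ ≤ β) (y : ℝ) :
    ‖deriv F (c + y * I)‖ ≤ M * Real.exp (δ * ρ ^ 2) / ρ * Real.exp (-(δ / 2) * y ^ 2) := by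
  have h := Complex.norm_deriv_le_of_forall_mem_sphere_norm_le (f := F) (c := (c : ℂ) + y * I)
    (R := ρ) (C := M * Real.exp (δ * ρ ^ 2) * Real.exp (-(δ / 2) * y ^ 2)) hρ
    hF.diffContOnCl (fun z hz => by
      rw [mem_sphere_iff_norm] at hz
      have e : z = (z.re : ℂ) + (z.im : ℂ) * I := (Complex.re_add_im z).symm
      have g1 : |z.re - c| ≤ ρ := by
        have := Complex.abs_re_le_norm (z - (c + y * I))
        rw [hz] at this
        simpa using this
      have g2 : |z.im - y| ≤ ρ := by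
        have := Complex.abs_im_le_norm (z - (c + y * I))
        rw [hz] at this
        simpa using this
      have g3 := abs_le.mp g1
      have g4 := hbd z.re z.im (by linarith) (by linarith)
      rw [← e] at g4
      refine g4.trans ?_
      rw [mul_assoc]
      apply mul_le_mul_of_nonneg_left _ hM
      rw [← Real.exp_add]
      apply Real.exp_le_exp.2
      have g5 : (z.im - y) ^ 2 ≤ ρ ^ 2 := by
        rw [← sq_abs]
        exact pow_le_pow_left₀ (abs_nonneg _) g2 2
      have g6 : y ^ 2 / 2 - ρ ^ 2 ≤ z.im ^ 2 := by nlinarith [sq_nonneg (2 * z.im - y)]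
      nlinarith)
  refine h.trans (le_of_eq ?_)
  ring

/-- **Plancherel for the derivative.** -/
theorem der_planch (hF : Differentiable ℂ F) (hδ : 0 < δ) (hM : 0 ≤ M)
    (hbd : ∀ x y : ℝ, α ≤ x → x ≤ β → ‖F (x + y * I)‖ ≤ M * Real.exp (-δ * y ^ 2))
    {c ρ : ℝ} (hρ : 0 < ρ) (h1 : α ≤ c - ρ) (h2 : c + ρ ≤ β) (A : ℝ) :
    Integrable (fun y : ℝ => ‖I * deriv F (c + y * I) + A * I * F (c + y * I)‖ ^ 2) ∧
    Integrable (fun ξ => (2 * Real.pi * ξ + A) ^ 2 * dens F c ξ) ∧
    ∫ y : ℝ, ‖I * deriv F (c + y * I) + A * I * F (c + y * I)‖ ^ 2 =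
      ∫ ξ, (2 * Real.pi * ξ + A) ^ 2 * dens F c ξ := by
  set f := ln F c with hf
  set f' : ℝ → ℂ := fun y => I * deriv F (c + y * I) with hf'
  have hd : ∀ y, HasDerivAt f (f' y) y := fun y => ln_deriv hF c y
  have hdF : Continuous (deriv F) := (hF.contDiff (n := 1)).continuous_deriv le_rfl
  have hfc' : Continuous f' := by
    rw [hf']
    fun_prop
  have il : Integrable f := ln_integrable hF hδ hbd (by linarith) (by linarith)
  have il2 : MemLp f 2 := ln_memLp hF hδ hbd (by linarith) (by linarith)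
  have hb := deriv_bd hF hδ hM hbd hρ h1 h2
  set C := M * Real.exp (δ * ρ ^ 2) / ρ with hC
  have hfb : ∀ y, ‖f' y‖ ≤ C * Real.exp (-(δ / 2) * y ^ 2) := by
    intro y
    rw [hf']
    simp only
    rw [norm_mul, Complex.norm_I, one_mul]
    exact hb y
  have il' : Integrable f' :=
    ((integrable_exp_neg_mul_sq (b := δ / 2) (by positivity)).const_mul C).mono'
      hfc'.aestronglyMeasurable (Eventually.of_forall hfb)
  have il2' : MemLp f' 2 := by
    rw [memLp_two_iff_integrable_sq_norm hfc'.aestronglyMeasurable]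
    refine ((integrable_exp_neg_mul_sq (b := δ) hδ).const_mul (C ^ 2)).mono'
      (hfc'.norm.pow 2).aestronglyMeasurable (Eventually.of_forall fun y => ?_)
    rw [Real.norm_of_nonneg (by positivity)]
    have h4 : (C * Real.exp (-(δ / 2) * y ^ 2)) ^ 2 = C ^ 2 * Real.exp (-δ * y ^ 2) := by
      rw [mul_pow, ← Real.exp_nat_mul]
      congr 2
      push_cast
      ring
    rw [← h4]
    exact pow_le_pow_left₀ (norm_nonneg _) (hfb y) 2
  set g : ℝ → ℂ := fun y => f' y + (A * I) * f y with hg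
  have ig : Integrable g := il'.add (il.const_mul _)
  have ig2 : MemLp g 2 := il2'.add (il2.const_mul _)
  have hder : deriv f = f' := funext fun y => (hd y).deriv
  have hfd : 𝓕 f' = fun ξ : ℝ => (2 * Real.pi * I * ξ) • 𝓕 f ξ := by
    rw [← hder]
    exact Real.fourier_deriv il (fun y => (hd y).differentiableAt) (by rw [hder]; exact il')
  have hFg : ∀ ξ, 𝓕 g ξ = I * ((2 * Real.pi * ξ + A : ℝ) : ℂ) * 𝓕 f ξ := by
    intro ξ
    have e1 : 𝓕 g ξ = 𝓕 f' ξ + (A * I) * 𝓕 f ξ := by
      rw [Real.fourier_eq', Real.fourier_eq', Real.fourier_eq']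
      simp only [smul_eq_mul, RCLike.inner_apply, conj_trivial]
      have hb : ∀ g : ℝ → ℂ, Integrable g →
          Integrable (fun y : ℝ => cexp ((-2 * Real.pi * (ξ * y) : ℝ) * I) * g y) := by
        intro g hg
        refine hg.norm.mono' (Continuous.aestronglyMeasurable (by fun_prop) |>.mul
          hg.aestronglyMeasurable) (Eventually.of_forall fun y => ?_)
        rw [norm_mul, Complex.norm_exp_ofReal_mul_I, one_mul]
      rw [← integral_const_mul, ← integral_add (hb _ il') ((hb _ il).const_mul _)]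
      refine integral_congr_ae (Eventually.of_forall fun y => ?_)
      simp only [hg]
      ring
    rw [e1, hfd]
    simp only [smul_eq_mul]
    push_cast
    ring
  have hP := Pool.Agent.Helper625.Planch.plancherel g ig ig2
  have hn : ∀ ξ, ‖𝓕 g ξ‖ ^ 2 = (2 * Real.pi * ξ + A) ^ 2 * dens F c ξ := by
    intro ξ
    rw [hFg, norm_mul, norm_mul, Complex.norm_I, one_mul, mul_pow, Complex.norm_real,
      Real.norm_eq_abs, sq_abs]
    rfl
  refine ⟨?_, ?_, ?_⟩
  · have := (memLp_two_iff_integrable_sq_norm ig2.aestronglyMeasurable).mp ig2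
    exact this
  · have := (memLp_two_iff_integrable_sq_norm hP.1.aestronglyMeasurable).mp hP.1
    refine this.congr (Eventually.of_forall fun ξ => ?_)
    exact hn ξ
  · have := hP.2
    rw [integral_congr_ae (Eventually.of_forall hn)] at this
    exact this.symm

theorem sq_le_cosh (x : ℝ) : x ^ 2 ≤ Real.exp x + Real.exp (-x) - 2 := by
  have h1 : |x / 2| ≤ |Real.sinh (x / 2)| := by
    rw [Real.abs_sinh]
    exact Real.self_le_sinh_iff.2 (abs_nonneg _)
  have h2 := pow_le_pow_left₀ (abs_nonneg _) h1 2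
  rw [sq_abs, sq_abs, Real.sinh_eq] at h2
  have e1 : Real.exp x = Real.exp (x / 2) * Real.exp (x / 2) := by
    rw [← Real.exp_add]; congr 1; ring
  have e2 : Real.exp (-x) = Real.exp (-(x / 2)) * Real.exp (-(x / 2)) := by
    rw [← Real.exp_add]; congr 1; ring
  have e3 : Real.exp (x / 2) * Real.exp (-(x / 2)) = 1 := by
    rw [← Real.exp_add, add_neg_cancel, Real.exp_zero]
  rw [e1, e2]
  nlinarith

/-- The energy against the means on two lines. -/
theorem energy_le (hF : Differentiable ℂ F) (hδ : 0 < δ) (hM : 0 ≤ M)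
    (hbd : ∀ x y : ℝ, α ≤ x → x ≤ β → ‖F (x + y * I)‖ ≤ M * Real.exp (-δ * y ^ 2))
    {c L a : ℝ} (hL : 0 < L) (ha : 0 < a) (h1 : α ≤ c - a / L) (h2 : c + a / L ≤ β) :
    ∫ y : ℝ, ‖I * deriv F (c + y * I) + ((L / 2 : ℝ) : ℂ) * I * F (c + y * I)‖ ^ 2 ≤
      L ^ 2 / 4 * (1 / a ^ 2 * (Real.exp a * VI F (c + a / L) + Real.exp (-a) * VI F (c - a / L) -
        2 * VI F c)) := by
  have haL : 0 < a / L := by positivity
  obtain ⟨-, i2, e⟩ := der_planch hF hδ hM hbd haL h1 h2 (L / 2)
  rw [e]
  have r0 := rep hF hδ hM hbd (c := c) (x := c) (by linarith) (by linarith) (by linarith)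
    (by linarith)
  have r1 := rep hF hδ hM hbd (c := c) (x := c + a / L) (by linarith) (by linarith) (by linarith)
    (by linarith)
  have r2 := rep hF hδ hM hbd (c := c) (x := c - a / L) (by linarith) (by linarith) (by linarith)
    (by linarith)
  have i3 : Integrable (fun ξ => L ^ 2 / 4 * (1 / a ^ 2 *
      (Real.exp a * (Real.exp (4 * Real.pi * ξ * (c + a / L - c)) * dens F c ξ) +
        Real.exp (-a) * (Real.exp (4 * Real.pi * ξ * (c - a / L - c)) * dens F c ξ) -
          2 * (Real.exp (4 * Real.pi * ξ * (c - c)) * dens F c ξ)))) :=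
    ((((r1.1.const_mul _).add (r2.1.const_mul _)).sub (r0.1.const_mul _)).const_mul _).const_mul _
  have hle := integral_mono i2 i3 (fun ξ => by
    have hd := dens_nonneg F c ξ
    simp only
    set x := a * (1 + 4 * Real.pi * ξ / L) with hx
    have k1 := sq_le_cosh x
    have k2 : (2 * Real.pi * ξ + L / 2) ^ 2 = L ^ 2 / 4 * (1 / a ^ 2 * x ^ 2) := by
      rw [hx]
      field_simp
      ring
    have k3 : Real.exp x = Real.exp a * Real.exp (4 * Real.pi * ξ * (c + a / L - c)) := by
      rw [← Real.exp_add]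
      congr 1
      rw [hx]
      field_simp
      ring
    have k4 : Real.exp (-x) = Real.exp (-a) * Real.exp (4 * Real.pi * ξ * (c - a / L - c)) := by
      rw [← Real.exp_add]
      congr 1
      rw [hx]
      field_simp
      ring
    have k5 : Real.exp (4 * Real.pi * ξ * (c - c)) = 1 := by simp
    rw [k2, k5]
    calc L ^ 2 / 4 * (1 / a ^ 2 * x ^ 2) * dens F c ξ
        ≤ L ^ 2 / 4 * (1 / a ^ 2 * (Real.exp x + Real.exp (-x) - 2)) * dens F c ξ := by gcongr
      _ = _ := by rw [k3, k4]; ring)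
  refine hle.trans (le_of_eq ?_)
  have i4 : Integrable (fun ξ =>
      Real.exp a * (Real.exp (4 * Real.pi * ξ * (c + a / L - c)) * dens F c ξ) +
        Real.exp (-a) * (Real.exp (4 * Real.pi * ξ * (c - a / L - c)) * dens F c ξ)) :=
    (r1.1.const_mul _).add (r2.1.const_mul _)
  rw [integral_const_mul, integral_const_mul,
    integral_sub i4 (r0.1.const_mul _),
    integral_add (r1.1.const_mul _) (r2.1.const_mul _), integral_const_mul, integral_const_mul,
    integral_const_mul, r1.2, r2.2, r0.2]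

end

end Q63.LG
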