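import Pool.Agent.Q63.LG.Va
import Pool.Agent.Q63.LG.De

/-!
# The energy of the derivative in windows longer than a power
-/

set_option autoImplicit false

open MeasureTheory Filter Topology Complex Set FourierTransform ComplexConjugate
open Q97.MM

namespace Q63.LG

noncomputable section

theorem cosh_upper (x : ℝ) : Real.exp x + Real.exp (-x) - 2 ≤ x ^ 2 * Real.exp |x| := by
  have key : ∀ t : ℝ, 0 ≤ t → Real.exp t + Real.exp (-t) - 2 ≤ t ^ 2 * Real.exp t := by
    intro t ht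
    set y := Real.exp (t / 2) with hy
    have hy0 : 0 < y := Real.exp_pos _
    have e1 : Real.exp t = y * y := by rw [hy, ← Real.exp_add]; congr 1; ring
    have e2 : Real.exp (-t) = y⁻¹ * y⁻¹ := by
      rw [hy, ← Real.exp_neg, ← Real.exp_add]; congr 1; ring
    have h1 : 1 - t ≤ y⁻¹ * y⁻¹ := by
      rw [← e2]
      have := Real.add_one_le_exp (-t)
      linarith
    have h2 : 0 ≤ y - y⁻¹ := by
      have h3 : 1 ≤ y := Real.one_le_exp (by positivity)
      have h4 : y⁻¹ ≤ 1 := inv_le_one_of_one_le₀ h3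
      linarith
    have h3 : y - y⁻¹ ≤ t * y := by
      have h4 : y * (1 - t) ≤ y * (y⁻¹ * y⁻¹) := mul_le_mul_of_nonneg_left h1 hy0.le
      have h5 : y * (y⁻¹ * y⁻¹) = y⁻¹ := by field_simp
      rw [h5] at h4
      linarith
    have h4 : (y - y⁻¹) ^ 2 ≤ (t * y) ^ 2 := pow_le_pow_left₀ h2 h3 2
    have h5 : (y - y⁻¹) ^ 2 = y * y + y⁻¹ * y⁻¹ - 2 := by field_simp; ring
    rw [e1, e2, ← h5]
    refine h4.trans (le_of_eq ?_)
    ring
  rcases le_total 0 x with h | h
  · rw [abs_of_nonneg h]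
    exact key x h
  · rw [abs_of_nonpos h]
    have := key (-x) (by linarith)
    rw [neg_neg] at this
    have e : (-x) ^ 2 = x ^ 2 := by ring
    rw [e] at this
    linarith

/-- the energy of the derivative -/
def En (T U : ℝ) : ℝ := ∫ y : ℝ, ‖I * deriv (FF 1 T U) (((1 / 2 : ℝ) : ℂ) + y * I) +
  ((Real.log T / 2 : ℝ) : ℂ) * I * FF 1 T U (((1 / 2 : ℝ) : ℂ) + y * I)‖ ^ 2

/-- the constant -/
def kap (ε : ℝ) : ℝ := 1 - 2 * ε + 4 / 3 * ε ^ 2

theorem En_le {T U a : ℝ} (hA : Adm T U) (ha : 0 < a) (haL : a / Real.log T ≤ 1 / 4) :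
    En T U ≤ Real.log T ^ 2 / 4 * (1 / a ^ 2 * (Real.exp a * Gn 1 T U a +
      Real.exp (-a) * Gn 1 T U (-a) - 2)) * V0 1 T U := by
  have hL : 0 < Real.log T := by linarith [hA.log]
  have hV := V0_pos 1 hA
  obtain ⟨M, δ, hM, hδ, hbd⟩ := FF_bd 1 T hA.pos
  have haL0 : 0 < a / Real.log T := by positivity
  have h := energy_le (FF_differentiable 1 T U) hδ hM hbd (c := 1 / 2) hL ha
    (by linarith) (by linarith)
  refine h.trans (le_of_eq ?_)
  have e1 : VI (FF 1 T U) (1 / 2 + a / Real.log T) = Gn 1 T U a * V0 1 T U := by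
    unfold Gn
    field_simp
  have e2 : VI (FF 1 T U) (1 / 2 - a / Real.log T) = Gn 1 T U (-a) * V0 1 T U := by
    unfold Gn
    rw [neg_div, ← sub_eq_add_neg]
    field_simp
  have e3 : VI (FF 1 T U) (1 / 2) = V0 1 T U := rfl
  rw [e1, e2, e3]
  ring

/-- **The energy and the second moment in windows longer than a power.** -/
theorem energy {ε : ℝ} (hε : 0 < ε) (hε1 : ε ≤ 1 / 2) {η : ℝ} (hη : 0 < η) :
    ∀ᶠ T : ℝ in atTop, ∀ U : ℝ, Adm T U → T ^ ε ≤ U →
      En T U ≤ Real.log T ^ 2 / 4 * (kap ε + η) * V0 1 T U ∧ Rr T U ≤ 1 / (4 * ε) + η := by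
  -- choice of the parameters
  obtain ⟨θ, hθ0, hθ2, hθk, hθr⟩ : ∃ θ : ℝ, 0 < θ ∧ θ < 2 * ε ∧ 1 - θ + θ ^ 2 / 3 < kap ε + η / 2 ∧
      1 / (2 * θ) < 1 / (4 * ε) + η := by
    have c1 : Tendsto (fun θ : ℝ => 1 - θ + θ ^ 2 / 3) (𝓝[<] (2 * ε)) (𝓝 (kap ε)) := by
      have : Tendsto (fun θ : ℝ => 1 - θ + θ ^ 2 / 3) (𝓝 (2 * ε))
          (𝓝 (1 - 2 * ε + (2 * ε) ^ 2 / 3)) := Continuous.tendsto (by fun_prop) _
      have e : 1 - 2 * ε + (2 * ε) ^ 2 / 3 = kap ε := by unfold kap; ring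
      rw [e] at this
      exact this.mono_left nhdsWithin_le_nhds
    have c2 : Tendsto (fun θ : ℝ => 1 / (2 * θ)) (𝓝[<] (2 * ε)) (𝓝 (1 / (4 * ε))) := by
      have h1 : ContinuousAt (fun θ : ℝ => 1 / (2 * θ)) (2 * ε) := by
        apply ContinuousAt.div continuousAt_const (by fun_prop)
        positivity
      have h2 := h1.tendsto
      have e : 1 / (2 * (2 * ε)) = 1 / (4 * ε) := by ring
      rw [e] at h2
      exact h2.mono_left nhdsWithin_le_nhds
    have c3 : ∀ᶠ θ : ℝ in 𝓝[<] (2 * ε), 0 < θ ∧ θ < 2 * ε := by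
      filter_upwards [Ioo_mem_nhdsLT (show (0 : ℝ) < 2 * ε by positivity)] with θ hθ using hθ
    obtain ⟨θ, h1, h2, h3, h4⟩ := (c3.and ((c1.eventually (gt_mem_nhds (show kap ε < kap ε + η / 2
      by linarith))).and ((c2.eventually (gt_mem_nhds (show 1 / (4 * ε) < 1 / (4 * ε) + η by
        linarith))).and c3))).exists
    exact ⟨θ, h4.1, h4.2, h2, h3⟩
  have hθ1 : θ ≤ 1 := by linarith
  obtain ⟨a, ha, hak⟩ : ∃ a : ℝ, 0 < a ∧ Real.exp a * (1 - θ + θ ^ 2 / 3) < kap ε + η := by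
    have c1 : Tendsto (fun a : ℝ => Real.exp a * (1 - θ + θ ^ 2 / 3)) (𝓝[>] 0)
        (𝓝 (1 - θ + θ ^ 2 / 3)) := by
      have : Tendsto (fun a : ℝ => Real.exp a * (1 - θ + θ ^ 2 / 3)) (𝓝 0)
          (𝓝 (Real.exp 0 * (1 - θ + θ ^ 2 / 3))) := Continuous.tendsto (by fun_prop) _
      rw [Real.exp_zero, one_mul] at this
      exact this.mono_left nhdsWithin_le_nhds
    obtain ⟨a, h1, h2⟩ := ((c1.eventually (gt_mem_nhds (show 1 - θ + θ ^ 2 / 3 < kap ε + η by
      linarith))).and self_mem_nhdsWithin).exists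
    exact ⟨a, h2, h1⟩
  by_contra hcon
  rw [Filter.not_eventually] at hcon
  -- a bad sequence
  have hseq : ∀ n : ℕ, ∃ T U : ℝ, (n : ℝ) ≤ T ∧ Adm T U ∧ T ^ ε ≤ U ∧
      ¬(En T U ≤ Real.log T ^ 2 / 4 * (kap ε + η) * V0 1 T U ∧ Rr T U ≤ 1 / (4 * ε) + η) := by
    intro n
    obtain ⟨T, hT, hbad⟩ := (hcon.and_eventually (eventually_ge_atTop (n : ℝ))).exists
    push Not at hT
    obtain ⟨U, hA, hTU, hU⟩ := hT
    exact ⟨T, U, hbad, hA, hTU, fun h => absurd h.2 (not_le.2 (hU h.1))⟩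
  choose T U hTn hA hTU hbad using hseq
  have hTt : Tendsto T atTop atTop := tendsto_atTop_mono hTn tendsto_natCast_atTop_atTop
  obtain ⟨φ, hφ, ν, hν, hsupp, hG, hvar, m, hRm, hm⟩ := limits hθ0 hθ2 hθ1 hTt
    (fun j => ⟨(hA j).2.1, (hA j).2.2⟩) hTU
  have hTφ : Tendsto (fun j => T (φ j)) atTop atTop := hTt.comp hφ.tendsto_atTop
  have c1 : ∀ᶠ j in atTop, Rr (T (φ j)) (U (φ j)) < 1 / (4 * ε) + η :=
    hRm.eventually (gt_mem_nhds (lt_of_le_of_lt hm hθr))
  -- the limit of the bound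
  have hcont : ∀ b : ℝ, Integrable (fun u => Real.exp (-(b * u))) ν := by
    intro b
    refine (integrable_const (Real.exp (|b| * 2))).mono' (by fun_prop) ?_
    filter_upwards [hsupp] with u hu
    rw [Real.norm_eq_abs, Real.abs_exp]
    apply Real.exp_le_exp.2
    calc -(b * u) ≤ |b * u| := neg_le_abs _
      _ = |b| * u := by rw [abs_mul, abs_of_nonneg hu.1]
      _ ≤ |b| * 2 := mul_le_mul_of_nonneg_left hu.2 (abs_nonneg _)
  have hlim := (((hG a).const_mul (Real.exp a)).add ((hG (-a)).const_mul (Real.exp (-a)))).sub_const 2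
    |>.const_mul (1 / a ^ 2)
  have hval : 1 / a ^ 2 * (Real.exp a * ∫ u, Real.exp (-(a * u)) ∂ν +
      Real.exp (-a) * ∫ u, Real.exp (-(-a * u)) ∂ν - 2) ≤ Real.exp a * (1 - θ + θ ^ 2 / 3) := by
    have e1 : Real.exp a * ∫ u, Real.exp (-(a * u)) ∂ν +
      Real.exp (-a) * ∫ u, Real.exp (-(-a * u)) ∂ν - 2 =
        ∫ u, (Real.exp a * Real.exp (-(a * u)) + Real.exp (-a) * Real.exp (-(-a * u)) - 2) ∂ν := by
      have i1 : Integrable (fun u => Real.exp a * Real.exp (-(a * u)) +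
          Real.exp (-a) * Real.exp (-(-a * u))) ν :=
        ((hcont a).const_mul _).add ((hcont (-a)).const_mul _)
      rw [integral_sub i1 (integrable_const _), integral_add ((hcont a).const_mul _)
        ((hcont (-a)).const_mul _), integral_const_mul, integral_const_mul, integral_const,
        probReal_univ, one_smul]
    rw [e1]
    have i2 : Integrable (fun u : ℝ => (1 - u) ^ 2) ν := by
      refine (integrable_const (1 : ℝ)).mono' (by fun_prop) ?_
      filter_upwards [hsupp] with u hu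
      rw [Real.norm_of_nonneg (by positivity)]
      nlinarith [hu.1, hu.2]
    have h1 : ∫ u, (Real.exp a * Real.exp (-(a * u)) + Real.exp (-a) * Real.exp (-(-a * u)) - 2) ∂ν ≤
        ∫ u, a ^ 2 * Real.exp a * (1 - u) ^ 2 ∂ν := by
      apply integral_mono_ae
      · exact (((hcont a).const_mul _).add ((hcont (-a)).const_mul _)).sub (integrable_const _)
      · exact i2.const_mul _
      · filter_upwards [hsupp] with u hu
        have k1 := cosh_upper (a * (1 - u))
        have k2 : Real.exp (a * (1 - u)) = Real.exp a * Real.exp (-(a * u)) := by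
          rw [← Real.exp_add]; congr 1; ring
        have k3 : Real.exp (-(a * (1 - u))) = Real.exp (-a) * Real.exp (-(-a * u)) := by
          rw [← Real.exp_add]; congr 1; ring
        rw [k2, k3] at k1
        have k4 : Real.exp |a * (1 - u)| ≤ Real.exp a := by
          apply Real.exp_le_exp.2
          rw [abs_mul, abs_of_pos ha]
          have : |1 - u| ≤ 1 := by
            rw [abs_le]
            constructor <;> linarith [hu.1, hu.2]
          nlinarith
        refine k1.trans ?_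
        calc (a * (1 - u)) ^ 2 * Real.exp |a * (1 - u)| ≤ (a * (1 - u)) ^ 2 * Real.exp a := by
              gcongr
          _ = _ := by ring
    rw [integral_const_mul] at h1
    calc 1 / a ^ 2 * _ ≤ 1 / a ^ 2 * (a ^ 2 * Real.exp a * ∫ u, (1 - u) ^ 2 ∂ν) := by gcongr
      _ = Real.exp a * ∫ u, (1 - u) ^ 2 ∂ν := by field_simp
      _ ≤ _ := by gcongr
  have c2 := hlim.eventually (gt_mem_nhds (lt_of_le_of_lt hval hak))
  have c3 := hTφ.eventually ((log_div_tendsto a).eventually (gt_mem_nhds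
    (show (0 : ℝ) < 1 / 4 by norm_num)))
  obtain ⟨j, hj1, hj2, hj3⟩ := (c1.and (c2.and c3)).exists
  apply hbad (φ j)
  refine ⟨?_, hj1.le⟩
  have hV := V0_pos 1 (hA (φ j))
  refine (En_le (hA (φ j)) ha (le_of_lt (lt_of_le_of_lt (le_abs_self _) hj3))).trans ?_
  gcongr

end

end Q63.LG
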