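import Pool.Agent.Q63.LG.Tr

/-!
# Long zero-free stretches in every window longer than a power
-/

set_option autoImplicit false

open Complex Filter Topology Set MeasureTheory Metric
open Q97.MM

namespace Q63.LG

noncomputable section

theorem kap_bounds {ε : ℝ} (hε : 0 ≤ ε) (hε1 : ε ≤ 1 / 2) : 1 / 3 ≤ kap ε ∧ kap ε ≤ 1 := by
  unfold kap
  constructor
  · nlinarith [sq_nonneg (1 - 2 * ε)]
  · nlinarith

theorem wt_cont (T U : ℝ) : Continuous (wt T U) := by
  unfold wt
  fun_prop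

theorem J_int {T U : ℝ} (hA : Adm T U) :
    Integrable (fun y : ℝ => ‖riemannZeta (((1 / 2 : ℝ) : ℂ) + y * I)‖ ^ (2 * 1) * wt T U y) :=
  JJ_integrable 1 hA.pos (by linarith [hA.1]) hA.le (by norm_num) (by norm_num)

/-- **Short gaps carry little of the second moment, and its lower bound.** -/
theorem mass {ε : ℝ} (hε : 0 < ε) (hε1 : ε ≤ 1 / 2) {η : ℝ} (hη : 0 < η) :
    ∀ᶠ T : ℝ in atTop, ∀ U : ℝ, Adm T U → T ^ ε ≤ U →
      (2 * ε - η) * (Real.sqrt Real.pi * U * Real.log T) ≤ JJ 1 T U (1 / 2) ∧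
      ∀ l : ℝ, 0 ≤ l → ∫ y in RZ.ShortG (l * (2 * Real.pi / Real.log T)),
        ‖riemannZeta (((1 / 2 : ℝ) : ℂ) + y * I)‖ ^ (2 * 1) * wt T U y ≤
          (kap ε * l ^ 2 + η) * JJ 1 T U (1 / 2) := by
  set η1 := min η 1 / 14 with hη1
  have hm0 : 0 < min η 1 := lt_min hη one_pos
  have hη10 : 0 < η1 := by positivity
  have hη11 : 14 * η1 ≤ η := by
    rw [hη1]
    have := min_le_left η 1
    linarith
  have hη12 : 14 * η1 ≤ 1 := by
    rw [hη1]
    have := min_le_right η 1
    linarith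
  obtain ⟨hk1, hk2⟩ := kap_bounds hε.le hε1
  filter_upwards [energy hε hε1 hη10, transfer_set1 1 hη10, F1 1 0 hη10] with T h1 h2 h3 U hA hTU
  obtain ⟨g1, g2⟩ := h1 U hA hTU
  have g3 := h2 U hA
  have g4 := h3 U hA
  have hV := V0_pos 1 hA
  have hU := hA.pos
  have hT : 0 < T := by linarith [hA.1]
  have hL : 0 < Real.log T := by linarith [hA.log]
  have hpi := Real.pi_pos
  set V := V0 1 T U with hVd
  set J := JJ 1 T U (1 / 2) with hJ
  have hJ0 : 0 ≤ J := JJ_nonneg 1 T U _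
  -- the moment against `V`
  have hJV : (1 - 2 * η1) * V ≤ T ^ 2 * J := by
    rw [Gn_zero 1 hA] at g4
    have e : Jn 1 T U 0 = T ^ 2 * J / V := by
      unfold Jn
      rw [zero_div, add_zero]
    rw [e] at g4
    have g5 := (abs_le.mp g4).2
    have g6 : 1 - 2 * η1 ≤ T ^ 2 * J / V := by linarith
    rwa [le_div_iff₀ hV] at g6
  refine ⟨?_, ?_⟩
  · -- the lower bound
    unfold Rr at g2
    rw [← hVd, div_le_iff₀ hV] at g2
    have hc : 0 < 1 / (4 * ε) + η1 := by positivity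
    have k1 : Real.sqrt Real.pi * T ^ 2 * U * (Real.log T / 2) * (1 - 2 * η1) ≤
        (1 / (4 * ε) + η1) * (T ^ 2 * J) := by
      calc _ ≤ ((1 / (4 * ε) + η1) * V) * (1 - 2 * η1) := by
            apply mul_le_mul_of_nonneg_right g2
            linarith
        _ = (1 / (4 * ε) + η1) * ((1 - 2 * η1) * V) := by ring
        _ ≤ _ := by gcongr
    set P := Real.sqrt Real.pi * U * Real.log T with hP
    have hP0 : 0 < P := by positivity
    have k2 : P * (1 - 2 * η1) ≤ (1 / (2 * ε) + 2 * η1) * J := by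
      have k3 : T ^ 2 * (P * (1 - 2 * η1)) ≤ T ^ 2 * ((1 / (2 * ε) + 2 * η1) * J) := by
        calc T ^ 2 * (P * (1 - 2 * η1)) =
              2 * (Real.sqrt Real.pi * T ^ 2 * U * (Real.log T / 2) * (1 - 2 * η1)) := by
              rw [hP]; ring
          _ ≤ 2 * ((1 / (4 * ε) + η1) * (T ^ 2 * J)) := by linarith
          _ = _ := by field_simp; ring
      exact le_of_mul_le_mul_left k3 (by positivity)
    have k4 : (2 * ε - η) * (1 / (2 * ε) + 2 * η1) ≤ 1 - 2 * η1 := by
      have k5 : (2 * ε - η) * (1 / (2 * ε) + 2 * η1) =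
          1 + 4 * ε * η1 - η / (2 * ε) - 2 * η * η1 := by
        field_simp
        ring
      have k6 : η ≤ η / (2 * ε) := by
        rw [le_div_iff₀ (by positivity)]
        nlinarith
      have k7 : 4 * ε * η1 ≤ 2 * η1 := by nlinarith
      have k8 : 0 ≤ 2 * η * η1 := by positivity
      rw [k5]
      linarith
    have hc2 : 0 < 1 / (2 * ε) + 2 * η1 := by positivity
    have k9 : (2 * ε - η) * P * (1 / (2 * ε) + 2 * η1) ≤ J * (1 / (2 * ε) + 2 * η1) := by
      calc (2 * ε - η) * P * (1 / (2 * ε) + 2 * η1) =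
            P * ((2 * ε - η) * (1 / (2 * ε) + 2 * η1)) := by ring
        _ ≤ P * (1 - 2 * η1) := by gcongr
        _ ≤ _ := by linarith
    exact le_of_mul_le_mul_right k9 hc2
  · intro l hl
    set r := l * (2 * Real.pi / Real.log T) with hr
    have hr0 : 0 ≤ r := by positivity
    have hS : MeasurableSet (RZ.ShortG r) := RZ.ShortG_closed.measurableSet
    set Q := ∫ y in RZ.ShortG r,
      ‖riemannZeta (((1 / 2 : ℝ) : ℂ) + y * I)‖ ^ (2 * 1) * wt T U y with hQ
    have hQJ : Q ≤ J := setIntegral_le_integral (J_int hA)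
      (Eventually.of_forall fun y => mul_nonneg (by positivity) (wt_pos _ _ _).le)
    by_cases hl1 : 1 ≤ kap ε * l ^ 2
    · calc Q ≤ J := hQJ
        _ ≤ (kap ε * l ^ 2 + η) * J := le_mul_of_one_le_left hJ0 (by linarith)
    · push Not at hl1
      have hl3 : l ^ 2 ≤ 3 := by nlinarith [sq_nonneg l]
      have k1 := g3 _ hS
      have k2 : ∫ y in RZ.ShortG r, ‖Z1 (((1 / 2 : ℝ) : ℂ) + y * I)‖ ^ (2 * 1) * wt T U y ≤
          l ^ 2 * (kap ε + η1) * V := by
        have k3 := short_FF hA hr0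
        have k4 : ∀ y : ℝ, ‖FF 1 T U (((1 / 2 : ℝ) : ℂ) + y * I)‖ ^ 2 =
            ‖Z1 (((1 / 2 : ℝ) : ℂ) + y * I)‖ ^ (2 * 1) * wt T U y := by
          intro y
          rw [FF_sq, sub_self, zero_pow (by norm_num), zero_div, Real.exp_zero, one_mul]
        simp only [k4] at k3
        refine k3.trans ?_
        calc (r / Real.pi) ^ 2 * En T U ≤
              (r / Real.pi) ^ 2 * (Real.log T ^ 2 / 4 * (kap ε + η1) * V) := by gcongr
          _ = _ := by
              rw [hr]
              field_simp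
              ring
      have k5 : T ^ 2 * Q ≤ ((1 + η1) * (l ^ 2 * (kap ε + η1)) + η1) * V := by
        calc T ^ 2 * Q = T ^ (2 * 1) * Q := by norm_num
          _ ≤ (1 + η1) * (∫ y in RZ.ShortG r,
            ‖Z1 (((1 / 2 : ℝ) : ℂ) + y * I)‖ ^ (2 * 1) * wt T U y) + η1 * V := k1
          _ ≤ (1 + η1) * (l ^ 2 * (kap ε + η1) * V) + η1 * V := by gcongr
          _ = _ := by ring
      have k6 : (1 + η1) * (l ^ 2 * (kap ε + η1)) + η1 ≤ (1 - 2 * η1) * (kap ε * l ^ 2 + η) := by
        have m0 : 0 ≤ l ^ 2 := sq_nonneg l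
        have m1 : η1 * η1 ≤ η1 := by nlinarith
        have m2 : kap ε * η1 ≤ η1 := by nlinarith
        have m3 : l ^ 2 * (η1 + kap ε * η1 + η1 * η1) ≤ 9 * η1 := by nlinarith
        have m4 : 2 * η1 * (kap ε * l ^ 2) ≤ 2 * η1 := by nlinarith
        have m5 : min η 1 = 14 * η1 := by rw [hη1]; ring
        have m6 : 12 * η1 ≤ (1 - 2 * η1) * η := by
          have : (1 - 2 * η1) * (14 * η1) ≤ (1 - 2 * η1) * η := by
            apply mul_le_mul_of_nonneg_left hη11
            linarith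
          nlinarith
        nlinarith
      have k7 : T ^ 2 * Q ≤ T ^ 2 * ((kap ε * l ^ 2 + η) * J) := by
        have m0 : 0 ≤ kap ε * l ^ 2 + η := by positivity
        calc T ^ 2 * Q ≤ ((1 + η1) * (l ^ 2 * (kap ε + η1)) + η1) * V := k5
          _ ≤ ((1 - 2 * η1) * (kap ε * l ^ 2 + η)) * V := by gcongr
          _ = (kap ε * l ^ 2 + η) * ((1 - 2 * η1) * V) := by ring
          _ ≤ (kap ε * l ^ 2 + η) * (T ^ 2 * J) := by gcongr
          _ = _ := by ring
      exact le_of_mul_le_mul_left k7 (by positivity)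

/-- Where every stretch of length `r` contains a zero. -/
theorem cover {A B r : ℝ} (hr : 0 < r)
    (h : ∀ a : ℝ, A ≤ a → a + r ≤ B → ∃ t, a < t ∧ t < a + r ∧ riemannZeta (1 / 2 + I * t) = 0)
    {t : ℝ} (h1 : A + r ≤ t) (h2 : t ≤ B - r) : t ∈ RZ.ShortG r := by
  obtain ⟨z1, a1, a2, a3⟩ := h (t - r) (by linarith) (by linarith)
  obtain ⟨z2, b1, b2, b3⟩ := h t (by linarith) (by linarith)
  set S1 := RZ.Gam ∩ Icc (t - r) t with hS1
  set S2 := RZ.Gam ∩ Icc t (t + r) with hS2
  have c1 : IsCompact S1 := isCompact_Icc.inter_left RZ.Gam_closed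
  have c2 : IsCompact S2 := isCompact_Icc.inter_left RZ.Gam_closed
  have n1 : S1.Nonempty := ⟨z1, a3, by linarith, by linarith⟩
  have n2 : S2.Nonempty := ⟨z2, b3, by linarith, by linarith⟩
  obtain ⟨g, hg, hg'⟩ := c1.exists_isGreatest n1
  obtain ⟨g2, hg2, hg2'⟩ := c2.exists_isLeast n2
  refine ⟨g, g2, hg.1, hg2.1, hg.2.2, hg2.2.1, ?_⟩
  by_contra hcon
  push Not at hcon
  obtain ⟨z, d1, d2, d3⟩ := h g (by linarith [hg.2.1]) (by linarith [hg.2.2])
  rcases le_total z t with hz | hz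
  · have := hg' ⟨d3, by linarith [hg.2.1], hz⟩
    linarith
  · have := hg2' ⟨d3, hz, by linarith [hg.2.2]⟩
    linarith

/-- **A long zero-free stretch in every interval `[T, T + T ^ ε]`.** -/
theorem gap {ε : ℝ} (hε : 0 < ε) (hε1 : ε ≤ 1 / 2) {l : ℝ} (hl : 0 ≤ l) (hkl : kap ε * l ^ 2 < 1) :
    ∀ᶠ T : ℝ in atTop, ∃ a : ℝ, T ≤ a ∧ a + l * (2 * Real.pi / Real.log T) ≤ T + T ^ ε ∧
      ∀ t : ℝ, a < t → t < a + l * (2 * Real.pi / Real.log T) → riemannZeta (1 / 2 + I * t) ≠ 0 := by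
  rcases hl.eq_or_lt with rfl | hl0
  · filter_upwards [eventually_gt_atTop 0] with T hT
    refine ⟨T, le_rfl, ?_, fun t h1 h2 => ?_⟩
    · have : 0 ≤ T ^ ε := by positivity
      linarith
    · linarith
  -- the parameters
  obtain ⟨ε', hε'0, hε'ε, hkl'⟩ : ∃ ε' : ℝ, 0 < ε' ∧ ε' < ε ∧ kap ε' * l ^ 2 < 1 := by
    have c1 : Tendsto (fun e : ℝ => kap e * l ^ 2) (𝓝[<] ε) (𝓝 (kap ε * l ^ 2)) := by
      have : Continuous (fun e : ℝ => kap e * l ^ 2) := by unfold kap; fun_prop
      exact (this.tendsto ε).mono_left nhdsWithin_le_nhds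
    obtain ⟨e, h1, h2⟩ := ((c1.eventually (gt_mem_nhds hkl)).and (Ioo_mem_nhdsLT hε)).exists
    exact ⟨e, h2.1, h2.2, h1⟩
  have hε'1 : ε' ≤ 1 / 2 := by linarith
  obtain ⟨l', hll', hkl2⟩ : ∃ l' : ℝ, l < l' ∧ kap ε' * l' ^ 2 < 1 := by
    have c1 : Tendsto (fun x : ℝ => kap ε' * x ^ 2) (𝓝[>] l) (𝓝 (kap ε' * l ^ 2)) := by
      have : Continuous (fun x : ℝ => kap ε' * x ^ 2) := by fun_prop
      exact (this.tendsto l).mono_left nhdsWithin_le_nhds
    obtain ⟨x, h1, h2⟩ := ((c1.eventually (gt_mem_nhds hkl')).and self_mem_nhdsWithin).exists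
    exact ⟨x, h2, h1⟩
  set η := min ((1 - kap ε' * l' ^ 2) / 3) ε' with hη
  have hη0 : 0 < η := lt_min (by linarith) hε'0
  have hη1 : η ≤ (1 - kap ε' * l' ^ 2) / 3 := min_le_left _ _
  have hη2 : η ≤ ε' := min_le_right _ _
  have hK := KK_nonneg 4
  set δ := 2 * (ε - ε') with hδ
  have hδ0 : 0 < δ := by rw [hδ]; linarith
  -- the eventual facts
  have hT1 : Tendsto (fun T : ℝ => T + T ^ ε / 2) atTop atTop := by
    apply tendsto_atTop_mono' _ _ tendsto_id
    filter_upwards [eventually_gt_atTop 0] with T hT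
    have : 0 ≤ T ^ ε := by positivity
    simp only [id]
    linarith
  have hmass := hT1.eventually (mass hε'0 hε'1 hη0)
  have hlog := Real.tendsto_log_atTop
  have hdecay : Tendsto (fun T : ℝ => (180 ^ 2 * 81 * KK 4 / ε') *
      (T ^ 4 * Real.exp (-(T ^ δ / 128)))) atTop (𝓝 0) := by
    have h1 := tendsto_rpow_mul_exp_neg_mul_atTop_nhds_zero (4 / δ) (1 / 128) (by norm_num)
    have h2 := h1.comp (tendsto_rpow_atTop hδ0)
    have h3 : Tendsto (fun T : ℝ => T ^ 4 * Real.exp (-(T ^ δ / 128))) atTop (𝓝 0) := by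
      refine h2.congr' ?_
      filter_upwards [eventually_gt_atTop 0] with T hT
      simp only [Function.comp]
      rw [← Real.rpow_mul hT.le, mul_div_cancel₀ _ hδ0.ne']
      have e : T ^ (4 : ℝ) = T ^ 4 := by
        rw [← Real.rpow_natCast]
        norm_num
      rw [e]
      congr 2
      ring
    have h4 := h3.const_mul (180 ^ 2 * 81 * KK 4 / ε')
    rwa [mul_zero] at h4
  have hrsmall : ∀ᶠ T : ℝ in atTop, l * (2 * Real.pi / Real.log T) ≤ T ^ ε / 4 := by
    filter_upwards [hlog.eventually_ge_atTop 1,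
      (tendsto_rpow_atTop hε).eventually_ge_atTop (8 * l * Real.pi)] with T h1 h2
    have h3 : 2 * Real.pi / Real.log T ≤ 2 * Real.pi := div_le_self (by positivity) h1
    have h4 : l * (2 * Real.pi / Real.log T) ≤ l * (2 * Real.pi) :=
      mul_le_mul_of_nonneg_left h3 hl
    linarith
  have hUadm0 : ∀ᶠ S : ℝ in atTop, Adm S (S ^ ε') := by
    have h1 : Tendsto (fun S : ℝ => Real.log S / S ^ (1 / 2 : ℝ)) atTop (𝓝 0) :=
      (isLittleO_log_rpow_atTop (by norm_num)).tendsto_div_nhds_zero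
    filter_upwards [eventually_ge_atTop 3, h1.eventually (gt_mem_nhds one_pos)] with S hS h2
    have hS0 : 0 < S := by linarith
    have hSl : 0 < Real.log S := Real.log_pos (by linarith)
    refine ⟨hS, Real.one_le_rpow (by linarith) hε'0.le, ?_⟩
    rw [le_div_iff₀ hSl]
    rw [div_lt_iff₀ (by positivity), one_mul] at h2
    calc S ^ ε' * Real.log S ≤ S ^ (1 / 2 : ℝ) * S ^ (1 / 2 : ℝ) := by
          apply mul_le_mul _ h2.le hSl.le (by positivity)
          exact Real.rpow_le_rpow_of_exponent_le (by linarith) hε'1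
      _ = S := by
          rw [← Real.rpow_add hS0]
          norm_num
  have hUadm : ∀ᶠ T : ℝ in atTop, Adm (T + T ^ ε / 2) ((T + T ^ ε / 2) ^ ε') :=
    hT1.eventually hUadm0
  have hratio : ∀ᶠ T : ℝ in atTop, l * Real.log 2 ≤ (l' - l) * Real.log T := by
    filter_upwards [hlog.eventually_ge_atTop (l * Real.log 2 / (l' - l))] with T h1
    rw [div_le_iff₀ (by linarith)] at h1
    linarith
  filter_upwards [hmass, hdecay.eventually (gt_mem_nhds hη0), hrsmall, hUadm, hratio,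
    eventually_ge_atTop 3] with T h1 h2 h3 hA h5 hT3
  by_contra hcon
  push Not at hcon
  have hT : 0 < T := by linarith
  have hTl : 0 < Real.log T := Real.log_pos (by linarith)
  have hTe : T ^ ε ≤ T := by
    calc T ^ ε ≤ T ^ (1 : ℝ) := Real.rpow_le_rpow_of_exponent_le (by linarith) (by linarith)
      _ = T := Real.rpow_one T
  have hTe0 : 0 < T ^ ε := by positivity
  set S := T + T ^ ε / 2 with hS
  have hS0 : 0 < S := by linarith
  have hTS : T ≤ S := by linarith
  have hS2 : S ≤ 2 * T := by linarith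
  set U := S ^ ε' with hU
  have hU0 : 0 < U := hA.pos
  have hlogS : Real.log S ≤ Real.log T + Real.log 2 := by
    rw [add_comm, ← Real.log_mul (by norm_num) hT.ne']
    exact Real.log_le_log hS0 hS2
  have hlogS0 : 0 < Real.log S := Real.log_pos (by linarith)
  have hpi := Real.pi_pos
  set r := l * (2 * Real.pi / Real.log T) with hr
  have hr0 : 0 < r := by positivity
  set r' := l' * (2 * Real.pi / Real.log S) with hr'
  have hrr' : r ≤ r' := by
    rw [hr, hr', mul_div_assoc', mul_div_assoc', div_le_div_iff₀ hTl hlogS0]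
    have : l * Real.log S ≤ l' * Real.log T := by
      have := mul_le_mul_of_nonneg_left hlogS hl
      linarith
    nlinarith
  obtain ⟨m1, m2⟩ := h1 U hA le_rfl
  have m3 := m2 l' (by linarith)
  rw [← hr'] at m3
  set J := JJ 1 S U (1 / 2) with hJ
  have hJ0 : ε' * U ≤ J := by
    refine le_trans ?_ m1
    have q1 : ε' ≤ 2 * ε' - η := by linarith
    have q2 : 1 ≤ Real.sqrt Real.pi := by
      rw [Real.one_le_sqrt]
      linarith [Real.pi_gt_three]
    have q3 : U ≤ Real.sqrt Real.pi * U * Real.log S := by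
      have q4 := hA.log
      calc U ≤ Real.sqrt Real.pi * U := le_mul_of_one_le_left hU0.le q2
        _ ≤ _ := le_mul_of_one_le_right (by positivity) q4
    calc ε' * U ≤ (2 * ε' - η) * U := by gcongr
      _ ≤ _ := by
          apply mul_le_mul_of_nonneg_left q3
          linarith
  have hJpos : 0 < J := lt_of_lt_of_le (by positivity) hJ0
  -- the mass in the middle
  set E := Icc (T + r) (T + T ^ ε - r) with hE
  have hEm : MeasurableSet E := measurableSet_Icc
  have hi := J_int hA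
  have hnn : ∀ y : ℝ, 0 ≤ ‖riemannZeta (((1 / 2 : ℝ) : ℂ) + y * I)‖ ^ (2 * 1) * wt S U y :=
    fun y => mul_nonneg (by positivity) (wt_pos _ _ _).le
  have hEsub : E ⊆ RZ.ShortG r' := by
    intro t ht
    have q1 : t ∈ RZ.ShortG r := cover hr0 (fun a ha1 ha2 => hcon a ha1 ha2) ht.1 ht.2
    obtain ⟨γ, γ', p1, p2, p3, p4, p5⟩ := q1
    exact ⟨γ, γ', p1, p2, p3, p4, p5.trans hrr'⟩
  have hmid : ∫ y in E, ‖riemannZeta (((1 / 2 : ℝ) : ℂ) + y * I)‖ ^ (2 * 1) * wt S U y ≤
      (kap ε' * l' ^ 2 + η) * J := by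
    refine le_trans ?_ m3
    exact setIntegral_mono_set hi.integrableOn (Eventually.of_forall hnn) hEsub.eventuallyLE
  -- the tail
  have htail : ∫ y in Eᶜ, ‖riemannZeta (((1 / 2 : ℝ) : ℂ) + y * I)‖ ^ (2 * 1) * wt S U y < η * J := by
    set X := Real.exp (-(T ^ δ / 128)) with hX
    have hX0 : 0 < X := Real.exp_pos _
    have hUT : U ^ 2 ≤ 4 * T ^ (2 * ε') := by
      have q1 : U ≤ 2 * T ^ ε' := by
        calc U ≤ (2 * T) ^ ε' := Real.rpow_le_rpow hS0.le hS2 hε'0.le
          _ = 2 ^ ε' * T ^ ε' := Real.mul_rpow (by norm_num) hT.le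
          _ ≤ 2 * T ^ ε' := by
              apply mul_le_mul_of_nonneg_right _ (by positivity)
              calc (2 : ℝ) ^ ε' ≤ 2 ^ (1 : ℝ) :=
                    Real.rpow_le_rpow_of_exponent_le (by norm_num) (by linarith)
                _ = 2 := Real.rpow_one 2
      calc U ^ 2 ≤ (2 * T ^ ε') ^ 2 := pow_le_pow_left₀ hU0.le q1 2
        _ = 4 * T ^ (2 * ε') := by
            rw [mul_pow, ← Real.rpow_natCast (T ^ ε'), ← Real.rpow_mul hT.le]
            norm_num
            ring_nf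
    have hpt : ∀ y ∈ Eᶜ, ‖riemannZeta (((1 / 2 : ℝ) : ℂ) + y * I)‖ ^ (2 * 1) * wt S U y ≤
        180 ^ 2 * (1 + S) ^ 4 * X * ((1 + |(y - S) / U|) ^ 4 * Real.exp (-(((y - S) / U) ^ 2 / 2))) := by
      intro y hy
      have q1 : T ^ ε / 4 ≤ |y - S| := by
        by_contra hcon
        push Not at hcon
        apply hy
        have := abs_lt.mp hcon
        constructor <;> linarith [this.1, this.2]
      have q2 : wt S U y ≤ X * Real.exp (-(((y - S) / U) ^ 2 / 2)) := by
        unfold wt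
        rw [hX, ← Real.exp_add]
        apply Real.exp_le_exp.2
        have q3 : T ^ δ / 64 ≤ ((y - S) / U) ^ 2 := by
          rw [div_pow, le_div_iff₀ (by positivity)]
          have q4 : (T ^ ε / 4) ^ 2 ≤ (y - S) ^ 2 := by
            rw [← sq_abs (y - S)]
            exact pow_le_pow_left₀ (by positivity) q1 2
          refine le_trans ?_ q4
          calc T ^ δ / 64 * U ^ 2 ≤ T ^ δ / 64 * (4 * T ^ (2 * ε')) := by gcongr
            _ = T ^ (δ + 2 * ε') / 16 := by rw [Real.rpow_add hT]; ring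
            _ = (T ^ ε / 4) ^ 2 := by
                have : δ + 2 * ε' = 2 * ε := by rw [hδ]; ring
                rw [this, div_pow, ← Real.rpow_natCast (T ^ ε), ← Real.rpow_mul hT.le]
                norm_num
                ring_nf
        linarith
      have q5 := zeta_pow_bd 1 (x := 1 / 2) (by norm_num) (by norm_num) y
      have q6 := abs_le_scaled hU0 hS0.le hA.le y
      have q7 : ‖riemannZeta (((1 / 2 : ℝ) : ℂ) + y * I)‖ ^ (2 * 1) ≤
          180 ^ 2 * ((1 + S) ^ 4 * (1 + |(y - S) / U|) ^ 4) := by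
        refine q5.trans ?_
        have q8 : (1 + |y|) ^ 4 ≤ ((1 + S) * (1 + |(y - S) / U|)) ^ 4 :=
          pow_le_pow_left₀ (by positivity) q6 4
        rw [mul_pow] at q8
        norm_num
        norm_num at q8
        linarith
      calc _ ≤ (180 ^ 2 * ((1 + S) ^ 4 * (1 + |(y - S) / U|) ^ 4)) *
            (X * Real.exp (-(((y - S) / U) ^ 2 / 2))) :=
            mul_le_mul q7 q2 (wt_pos _ _ _).le (by positivity)
        _ = _ := by ring
    have his := (scaled_integrable 4 S hU0).const_mul (180 ^ 2 * (1 + S) ^ 4 * X)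
    have q1 : ∫ y in Eᶜ, ‖riemannZeta (((1 / 2 : ℝ) : ℂ) + y * I)‖ ^ (2 * 1) * wt S U y ≤
        180 ^ 2 * (1 + S) ^ 4 * X * (U * KK 4) := by
      rw [← scaled_integral 4 S hU0, ← integral_const_mul]
      calc _ ≤ ∫ y in Eᶜ, 180 ^ 2 * (1 + S) ^ 4 * X *
            ((1 + |(y - S) / U|) ^ 4 * Real.exp (-(((y - S) / U) ^ 2 / 2))) :=
            setIntegral_mono_on hi.integrableOn his.integrableOn hEm.compl hpt
        _ ≤ _ := setIntegral_le_integral his (Eventually.of_forall fun y => by positivity)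
    have q2 : (1 + S) ^ 4 ≤ 81 * T ^ 4 := by
      calc (1 + S) ^ 4 ≤ (3 * T) ^ 4 := pow_le_pow_left₀ (by positivity) (by linarith) 4
        _ = _ := by ring
    calc _ ≤ 180 ^ 2 * (1 + S) ^ 4 * X * (U * KK 4) := q1
      _ ≤ 180 ^ 2 * (81 * T ^ 4) * X * (U * KK 4) := by gcongr
      _ = (180 ^ 2 * 81 * KK 4 / ε') * (T ^ 4 * X) * (ε' * U) := by
          field_simp
      _ ≤ (180 ^ 2 * 81 * KK 4 / ε') * (T ^ 4 * X) * J := by gcongr
      _ < η * J := by
          apply mul_lt_mul_of_pos_right h2 hJpos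
  have hsum := integral_add_compl hEm hi
  have hJJ : J = ∫ y : ℝ, ‖riemannZeta (((1 / 2 : ℝ) : ℂ) + y * I)‖ ^ (2 * 1) * wt S U y := rfl
  rw [← hJJ] at hsum
  have hfin : J < (kap ε' * l' ^ 2 + η) * J + η * J := by linarith
  have hfin2 : (kap ε' * l' ^ 2 + η) * J + η * J ≤ J := by
    have : kap ε' * l' ^ 2 + η + η ≤ 1 := by linarith
    nlinarith
  linarith

end

end Q63.LG
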