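import Pool.Agent.Q97.MM.Seq

/-!
# The Fourier transform of the windowed zeta function on the critical line as a sum over integers
-/

set_option autoImplicit false

open MeasureTheory Filter Topology Complex Set FourierTransform ComplexConjugate
open Q97.MM

namespace Q63.LG

noncomputable section

/-- the Gaussian with a frequency -/
def hG (U τ z : ℝ) : ℂ := cexp (((τ * z : ℝ) : ℂ) * I) * ((Real.exp (-(z ^ 2 / (2 * U ^ 2))) : ℝ) : ℂ)

theorem hG_norm (U τ z : ℝ) : ‖hG U τ z‖ = Real.exp (-(z ^ 2 / (2 * U ^ 2))) := by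
  unfold hG
  rw [norm_mul, Complex.norm_exp_ofReal_mul_I, one_mul, Complex.norm_real,
    Real.norm_of_nonneg (Real.exp_pos _).le]

theorem hG_cont (U τ : ℝ) : Continuous (hG U τ) := by
  unfold hG
  fun_prop

theorem exp_int {U : ℝ} (hU : 0 < U) : Integrable (fun z : ℝ => Real.exp (-(z ^ 2 / (2 * U ^ 2)))) := by
  have h := integrable_exp_neg_mul_sq (b := 1 / (2 * U ^ 2)) (by positivity)
  refine h.congr (Eventually.of_forall fun z => ?_)
  simp only
  congr 1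
  ring

theorem mexp_int {U : ℝ} (hU : 0 < U) :
    Integrable (fun z : ℝ => |z| * Real.exp (-(z ^ 2 / (2 * U ^ 2)))) := by
  have h := (integrable_mul_exp_neg_mul_sq (b := 1 / (2 * U ^ 2)) (by positivity)).norm
  refine h.congr (Eventually.of_forall fun z => ?_)
  simp only
  rw [norm_mul, Real.norm_eq_abs, Real.norm_of_nonneg (Real.exp_pos _).le]
  congr 2
  ring

theorem hG_int {U : ℝ} (hU : 0 < U) (τ : ℝ) : Integrable (hG U τ) := by
  refine (exp_int hU).mono' (hG_cont U τ).aestronglyMeasurable (Eventually.of_forall fun z => ?_)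
  rw [hG_norm]

theorem zhG_int {U : ℝ} (hU : 0 < U) (τ : ℝ) : Integrable (fun z : ℝ => (z : ℂ) * hG U τ z) := by
  refine (mexp_int hU).mono' ?_ (Eventually.of_forall fun z => ?_)
  · exact (Complex.continuous_ofReal.mul (hG_cont U τ)).aestronglyMeasurable
  · rw [norm_mul, hG_norm, Complex.norm_real, Real.norm_eq_abs]

/-- the Gaussian integral -/
def GI (U τ : ℝ) : ℝ := Real.sqrt (2 * Real.pi) * U * Real.exp (-(U ^ 2 * τ ^ 2 / 2))

theorem gaussA {U : ℝ} (hU : 0 < U) (τ : ℝ) : ∫ z : ℝ, hG U τ z = (GI U τ : ℂ) := by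
  have hb : 0 < ((1 / (2 * U ^ 2) : ℝ) : ℂ).re := by
    rw [Complex.ofReal_re]; positivity
  have h := fourierIntegral_gaussian hb (τ : ℂ)
  have e1 : ∀ z : ℝ, hG U τ z = cexp (I * τ * z) * cexp (-((1 / (2 * U ^ 2) : ℝ) : ℂ) * z ^ 2) := by
    intro z
    unfold hG
    rw [Complex.ofReal_exp]
    congr 2
    · push_cast; ring
    · push_cast; ring
  rw [integral_congr_ae (Eventually.of_forall e1), h]
  have hUc : (U : ℂ) ≠ 0 := Complex.ofReal_ne_zero.2 hU.ne'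
  have e2 : ((Real.pi : ℂ) / ((1 / (2 * U ^ 2) : ℝ) : ℂ)) = ((2 * Real.pi * U ^ 2 : ℝ) : ℂ) := by
    push_cast
    field_simp
  have e3 : ((Real.sqrt (2 * Real.pi) * U : ℝ) : ℂ) = ((2 * Real.pi * U ^ 2 : ℝ) : ℂ) ^ (1 / 2 : ℂ) := by
    have h1 : Real.sqrt (2 * Real.pi) * U = (2 * Real.pi * U ^ 2) ^ (1 / 2 : ℝ) := by
      have h2 : Real.sqrt (2 * Real.pi * U ^ 2) = Real.sqrt (2 * Real.pi) * U := by
        rw [Real.sqrt_mul (by positivity) (U ^ 2), Real.sqrt_sq hU.le]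
      rw [← Real.sqrt_eq_rpow, h2]
    rw [h1, Complex.ofReal_cpow (by positivity)]
    push_cast
    rfl
  rw [e2, ← e3]
  unfold GI
  rw [Complex.ofReal_mul (Real.sqrt (2 * Real.pi) * U), Complex.ofReal_exp]
  congr 2
  push_cast
  field_simp
  norm_num

theorem gaussB {U : ℝ} (hU : 0 < U) (τ : ℝ) :
    ∫ z : ℝ, (z : ℂ) * hG U τ z = I * τ * U ^ 2 * (GI U τ : ℂ) := by
  have hUc : (U : ℂ) ≠ 0 := Complex.ofReal_ne_zero.2 hU.ne'
  have hd : ∀ z : ℝ, HasDerivAt (hG U τ) (I * τ * hG U τ z - (1 / U ^ 2 : ℂ) * ((z : ℂ) * hG U τ z)) z := by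
    intro z
    have h1 : HasDerivAt (fun z : ℝ => (((τ * z : ℝ) : ℂ) * I)) (τ * I) z := by
      have h2 : HasDerivAt (fun z : ℝ => ((τ * z : ℝ) : ℂ)) (τ : ℂ) z := by
        have h3 : HasDerivAt (fun z : ℝ => τ * z) τ z := by
          simpa using (hasDerivAt_id z).const_mul τ
        exact h3.ofReal_comp
      exact h2.mul_const I
    have h4 : HasDerivAt (fun z : ℝ => ((Real.exp (-(z ^ 2 / (2 * U ^ 2))) : ℝ) : ℂ))
        ((Real.exp (-(z ^ 2 / (2 * U ^ 2))) * (-(z / U ^ 2)) : ℝ) : ℂ) z := by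
      have h5 : HasDerivAt (fun z : ℝ => -(z ^ 2 / (2 * U ^ 2))) (-(z / U ^ 2)) z := by
        have h6 := ((hasDerivAt_pow 2 z).div_const (2 * U ^ 2)).neg
        refine h6.congr_deriv ?_
        field_simp
        norm_num
      exact h5.exp.ofReal_comp
    have h7 := h1.cexp.mul h4
    refine h7.congr_deriv ?_
    unfold hG
    push_cast
    field_simp
    ring
  have h0 := integral_eq_zero_of_hasDerivAt_of_integrable hd
    (((hG_int hU τ).const_mul _).sub ((zhG_int hU τ).const_mul _)) (hG_int hU τ)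
  rw [integral_sub ((hG_int hU τ).const_mul _) ((zhG_int hU τ).const_mul _), integral_const_mul,
    integral_const_mul, gaussA hU, sub_eq_zero] at h0
  have h1 : ∫ z : ℝ, (z : ℂ) * hG U τ z = U ^ 2 * ((1 / U ^ 2 : ℂ) * ∫ z : ℝ, (z : ℂ) * hG U τ z) := by
    field_simp
  rw [h1, ← h0]
  ring

theorem gaussL {U : ℝ} (hU : 0 < U) (τ : ℝ) (A : ℂ) :
    ∫ z : ℝ, (A + z * I) * hG U τ z = (A - τ * U ^ 2) * (GI U τ : ℂ) := by
  have e : ∀ z : ℝ, (A + z * I) * hG U τ z = A * hG U τ z + I * ((z : ℂ) * hG U τ z) := by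
    intro z; ring
  rw [integral_congr_ae (Eventually.of_forall e), integral_add ((hG_int hU τ).const_mul _)
    ((zhG_int hU τ).const_mul _), integral_const_mul, integral_const_mul, gaussA hU, gaussB hU]
  linear_combination (τ * U ^ 2 * (GI U τ : ℂ)) * Complex.I_sq

/-- the offset of the frequency -/
def om (n : ℕ) (ξ : ℝ) : ℝ := 2 * Real.pi * ξ + Real.log (n + 1)

/-- the `n`-th term of the Fourier transform -/
def cc (T U : ℝ) (n : ℕ) (ξ : ℝ) : ℂ :=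
  cexp (-((om n ξ * T : ℝ) : ℂ) * I) *
    ((Real.exp (-(Real.log (n + 1) / 2)) * GI U (om n ξ) : ℝ) : ℂ) *
    (-1 / 2 + T * I + U ^ 2 * om n ξ)

/-- the `n`-th term on the line of abscissa `2` -/
def tm (T U ξ : ℝ) (n : ℕ) (y : ℝ) : ℂ :=
  cexp (((-2 * Real.pi * (ξ * y) : ℝ) : ℂ) * I) * ((1 + y * I) *
    cexp (-(Real.log (n + 1) : ℂ) * (2 + y * I)) * cexp ((3 / 2 + (y - T) * I) ^ 2 / (2 * (U : ℂ) ^ 2)))

theorem tm_eq (T U ξ : ℝ) (hU : 0 < U) (n : ℕ) (y : ℝ) :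
    tm T U ξ n y = (cexp (-((om n ξ * T : ℝ) : ℂ) * I) *
      ((Real.exp (-(2 * Real.log (n + 1)) + 9 / (8 * U ^ 2)) : ℝ) : ℂ)) *
      (((1 + T * I) + ((y - T : ℝ) : ℂ) * I) * hG U (3 / (2 * U ^ 2) - om n ξ) (y - T)) := by
  have hUc : (U : ℂ) ≠ 0 := Complex.ofReal_ne_zero.2 hU.ne'
  unfold tm hG om
  have e1 : (1 + (T : ℂ) * I) + ((y - T : ℝ) : ℂ) * I = 1 + y * I := by push_cast; ring
  rw [e1, Complex.ofReal_exp, Complex.ofReal_exp]
  have e2 : cexp (((-2 * Real.pi * (ξ * y) : ℝ) : ℂ) * I) *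
      (cexp (-(Real.log (n + 1) : ℂ) * (2 + y * I)) *
        cexp ((3 / 2 + (y - T) * I) ^ 2 / (2 * (U : ℂ) ^ 2))) =
      cexp (-(((2 * Real.pi * ξ + Real.log (n + 1)) * T : ℝ) : ℂ) * I) *
      cexp ((-(2 * Real.log (n + 1)) + 9 / (8 * U ^ 2) : ℝ) : ℂ) *
      (cexp ((((3 / (2 * U ^ 2) - (2 * Real.pi * ξ + Real.log (n + 1))) * (y - T) : ℝ) : ℂ) * I) *
        cexp ((-((y - T) ^ 2 / (2 * U ^ 2)) : ℝ) : ℂ)) := by
    rw [← Complex.exp_add, ← Complex.exp_add, ← Complex.exp_add, ← Complex.exp_add,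
      ← Complex.exp_add]
    congr 1
    have e3 : (3 / 2 + ((y : ℂ) - T) * I) ^ 2 / (2 * (U : ℂ) ^ 2) =
        9 / (8 * (U : ℂ) ^ 2) + 3 / (2 * (U : ℂ) ^ 2) * (y - T) * I - (y - T) ^ 2 / (2 * (U : ℂ) ^ 2) := by
      field_simp
      linear_combination (32 * ((y : ℂ) - T) ^ 2) * Complex.I_sq
    rw [e3]
    push_cast
    ring
  calc _ = (1 + (y : ℂ) * I) * (cexp (((-2 * Real.pi * (ξ * y) : ℝ) : ℂ) * I) *
      (cexp (-(Real.log (n + 1) : ℂ) * (2 + y * I)) *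
        cexp ((3 / 2 + (y - T) * I) ^ 2 / (2 * (U : ℂ) ^ 2)))) := by ring
    _ = _ := by rw [e2]; ring

theorem tm_integrable (T ξ : ℝ) {U : ℝ} (hU : 0 < U) (n : ℕ) : Integrable (tm T U ξ n) := by
  have h1 : Integrable (fun z : ℝ => ((1 + T * I : ℂ) + z * I) * hG U (3 / (2 * U ^ 2) - om n ξ) z) := by
    have h2 := ((hG_int hU (3 / (2 * U ^ 2) - om n ξ)).const_mul (1 + T * I : ℂ)).add
      ((zhG_int hU (3 / (2 * U ^ 2) - om n ξ)).const_mul I)
    refine h2.congr (Eventually.of_forall fun z => ?_)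
    simp only [Pi.add_apply]
    ring
  have h3 := (h1.comp_sub_right T).const_mul (cexp (-((om n ξ * T : ℝ) : ℂ) * I) *
      ((Real.exp (-(2 * Real.log (n + 1)) + 9 / (8 * U ^ 2)) : ℝ) : ℂ))
  refine h3.congr (Eventually.of_forall fun y => ?_)
  exact (tm_eq T U ξ hU n y).symm

theorem tm_integral (T ξ : ℝ) {U : ℝ} (hU : 0 < U) (n : ℕ) :
    ∫ y : ℝ, tm T U ξ n y = ((Real.exp (3 * Real.pi * ξ) : ℝ) : ℂ) * cc T U n ξ := by
  have hUc : (U : ℂ) ≠ 0 := Complex.ofReal_ne_zero.2 hU.ne'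
  rw [integral_congr_ae (Eventually.of_forall (tm_eq T U ξ hU n)), integral_const_mul]
  have h1 := integral_sub_right_eq_self (μ := (volume : Measure ℝ))
    (fun z : ℝ => ((1 + T * I : ℂ) + (z : ℂ) * I) * hG U (3 / (2 * U ^ 2) - om n ξ) z) T
  rw [h1, gaussL hU]
  unfold cc
  have e1 : (1 + T * I - ((3 / (2 * U ^ 2) - om n ξ : ℝ) : ℂ) * U ^ 2 : ℂ) =
      -1 / 2 + T * I + U ^ 2 * om n ξ := by
    push_cast
    field_simp
    ring
  rw [e1]
  have e2 : Real.exp (-(2 * Real.log (n + 1)) + 9 / (8 * U ^ 2)) * GI U (3 / (2 * U ^ 2) - om n ξ) =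
      Real.exp (3 * Real.pi * ξ) * (Real.exp (-(Real.log (n + 1) / 2)) * GI U (om n ξ)) := by
    unfold GI
    have e3 : Real.exp (-(2 * Real.log (n + 1)) + 9 / (8 * U ^ 2)) *
        Real.exp (-(U ^ 2 * (3 / (2 * U ^ 2) - om n ξ) ^ 2 / 2)) =
        Real.exp (3 * Real.pi * ξ) * (Real.exp (-(Real.log (n + 1) / 2)) *
          Real.exp (-(U ^ 2 * om n ξ ^ 2 / 2))) := by
      rw [← Real.exp_add, ← Real.exp_add, ← Real.exp_add]
      congr 1
      unfold om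
      field_simp
      ring
    linear_combination (Real.sqrt (2 * Real.pi) * U) * e3
  have e4 := congrArg (fun x : ℝ => (x : ℂ)) e2
  simp only [Complex.ofReal_mul] at e4
  rw [Complex.ofReal_mul (Real.exp (-(Real.log (n + 1) / 2))) (GI U (om n ξ))]
  linear_combination (cexp (-((om n ξ * T : ℝ) : ℂ) * I) * (-1 / 2 + T * I + U ^ 2 * om n ξ)) * e4

end

end Q63.LG
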