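import Pool.Agent.Q63.LG.Fo

/-!
# The Fourier transform of the windowed zeta function on the critical line as a sum over integers (2)
-/

set_option autoImplicit false

open MeasureTheory Filter Topology Complex Set FourierTransform ComplexConjugate
open Q97.MM

namespace Q63.LG

noncomputable section

theorem exp_two_log (n : ℕ) : Real.exp (-(2 * Real.log (n + 1))) = 1 / ((n : ℝ) + 1) ^ 2 := by
  have hn : (0 : ℝ) < (n : ℝ) + 1 := by positivity
  rw [Real.exp_neg, two_mul, Real.exp_add, Real.exp_log hn]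
  field_simp

theorem tm_norm (T U ξ : ℝ) (hU : 0 < U) (n : ℕ) (y : ℝ) :
    ‖tm T U ξ n y‖ = 1 / ((n : ℝ) + 1) ^ 2 * (Real.exp (9 / (8 * U ^ 2)) *
      (‖(1 + T * I) + ((y - T : ℝ) : ℂ) * I‖ * Real.exp (-((y - T) ^ 2 / (2 * U ^ 2))))) := by
  rw [tm_eq T U ξ hU, norm_mul, norm_mul, norm_mul, hG_norm, Complex.norm_real,
    Real.norm_of_nonneg (Real.exp_pos _).le, Real.exp_add, exp_two_log]
  have e : -((om n ξ * T : ℝ) : ℂ) * I = ((-(om n ξ * T) : ℝ) : ℂ) * I := by push_cast; ring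
  rw [e, Complex.norm_exp_ofReal_mul_I]
  ring

theorem summable_sq : Summable (fun n : ℕ => 1 / ((n : ℝ) + 1) ^ 2) := by
  have h := (summable_nat_add_iff 1).2 (Real.summable_one_div_nat_pow.2 (one_lt_two))
  refine h.congr fun n => ?_
  push_cast
  rfl

theorem zeta_term (n : ℕ) (s : ℂ) : 1 / ((n : ℂ) + 1) ^ s = cexp (-(Real.log (n + 1) : ℂ) * s) := by
  have hn : ((n : ℂ) + 1) ≠ 0 := by exact_mod_cast Nat.succ_ne_zero n
  rw [Complex.cpow_def_of_ne_zero hn, one_div, ← Complex.exp_neg]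
  congr 1
  have e : Complex.log ((n : ℂ) + 1) = (Real.log (n + 1) : ℂ) := by
    rw [Complex.ofReal_log (by positivity)]
    push_cast
    rfl
  rw [e]
  ring

theorem tm_tsum (T U ξ y : ℝ) :
    ∑' n : ℕ, tm T U ξ n y =
      cexp (((-2 * Real.pi * (ξ * y) : ℝ) : ℂ) * I) * ln (FF 1 T U) 2 y := by
  have hz := zeta_eq_tsum_one_div_nat_add_one_cpow (s := (2 : ℂ) + y * I) (by simp)
  have hne : (2 : ℂ) + y * I ≠ 1 := by
    intro h
    have := congrArg Complex.re h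
    simp at this
  unfold ln FF
  have e0 : ((2 : ℝ) : ℂ) + y * I = 2 + y * I := by push_cast; rfl
  rw [e0, Z1_of_ne hne, pow_one, hz]
  have e1 : ((2 : ℂ) + y * I - 1 / 2 - T * I) ^ 2 = (3 / 2 + (y - T) * I) ^ 2 := by ring
  rw [e1]
  have e2 : ∀ n : ℕ, tm T U ξ n y = (cexp (((-2 * Real.pi * (ξ * y) : ℝ) : ℂ) * I) *
      (((2 : ℂ) + y * I - 1) * cexp ((3 / 2 + (y - T) * I) ^ 2 / (2 * (U : ℂ) ^ 2)))) *
      (1 / ((n : ℂ) + 1) ^ ((2 : ℂ) + y * I)) := by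
    intro n
    rw [zeta_term]
    unfold tm
    ring
  rw [tsum_congr e2, tsum_mul_left]
  ring

theorem four_two (T ξ : ℝ) {U : ℝ} (hU : 0 < U) :
    HasSum (fun n => ((Real.exp (3 * Real.pi * ξ) : ℝ) : ℂ) * cc T U n ξ)
      (𝓕 (ln (FF 1 T U) 2) ξ) := by
  have hs : Summable fun n : ℕ => ∫ y : ℝ, ‖tm T U ξ n y‖ := by
    have e : ∀ n : ℕ, ∫ y : ℝ, ‖tm T U ξ n y‖ = 1 / ((n : ℝ) + 1) ^ 2 *
        ∫ y : ℝ, (Real.exp (9 / (8 * U ^ 2)) *
      (‖(1 + T * I) + ((y - T : ℝ) : ℂ) * I‖ * Real.exp (-((y - T) ^ 2 / (2 * U ^ 2))))) := by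
      intro n
      rw [← integral_const_mul]
      exact integral_congr_ae (Eventually.of_forall (tm_norm T U ξ hU n))
    simp only [e]
    exact summable_sq.mul_right _
  have h := hasSum_integral_of_summable_integral_norm (fun n => tm_integrable T ξ hU n) hs
  have e2 : 𝓕 (ln (FF 1 T U) 2) ξ = ∫ y : ℝ, ∑' n : ℕ, tm T U ξ n y := by
    rw [Real.fourier_eq']
    refine integral_congr_ae (Eventually.of_forall fun y => ?_)
    simp only [smul_eq_mul, RCLike.inner_apply, conj_trivial]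
    rw [tm_tsum]
  rw [e2]
  refine h.congr_fun ?_
  intro n
  rw [tm_integral T ξ hU n]

/-- **The Fourier transform on the critical line.** -/
theorem four_hasSum (T ξ : ℝ) {U : ℝ} (hU : 0 < U) :
    HasSum (fun n => cc T U n ξ) (𝓕 (ln (FF 1 T U) (1 / 2)) ξ) := by
  obtain ⟨M, δ, hM, hδ, hbd⟩ := FF_bd 1 T hU
  have h := fourier_shift (FF_differentiable 1 T U) hδ hM hbd (x := 1 / 2) (x' := 2)
    (by norm_num) (by norm_num) (by norm_num) ξ
  have h2 := (four_two T ξ hU).mul_left (((Real.exp (-(3 * Real.pi * ξ)) : ℝ) : ℂ))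
  have e1 : 𝓕 (ln (FF 1 T U) (1 / 2)) ξ =
      ((Real.exp (-(3 * Real.pi * ξ)) : ℝ) : ℂ) * 𝓕 (ln (FF 1 T U) 2) ξ := by
    have e3 : ((Real.exp (2 * Real.pi * ξ * (1 / 2)) : ℝ) : ℂ) *
        ((Real.exp (-(2 * Real.pi * ξ * (1 / 2))) : ℝ) : ℂ) = 1 := by
      rw [← Complex.ofReal_mul, ← Real.exp_add, add_neg_cancel, Real.exp_zero, Complex.ofReal_one]
    have e4 : ((Real.exp (2 * Real.pi * ξ * (1 / 2)) : ℝ) : ℂ) *
        ((Real.exp (-(2 * Real.pi * ξ * 2)) : ℝ) : ℂ) = ((Real.exp (-(3 * Real.pi * ξ)) : ℝ) : ℂ) := by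
      rw [← Complex.ofReal_mul, ← Real.exp_add]
      congr 2
      ring
    calc 𝓕 (ln (FF 1 T U) (1 / 2)) ξ = (((Real.exp (2 * Real.pi * ξ * (1 / 2)) : ℝ) : ℂ) *
        ((Real.exp (-(2 * Real.pi * ξ * (1 / 2))) : ℝ) : ℂ)) * 𝓕 (ln (FF 1 T U) (1 / 2)) ξ := by
          rw [e3, one_mul]
      _ = ((Real.exp (2 * Real.pi * ξ * (1 / 2)) : ℝ) : ℂ) *
          (((Real.exp (-(2 * Real.pi * ξ * (1 / 2))) : ℝ) : ℂ) * 𝓕 (ln (FF 1 T U) (1 / 2)) ξ) := by
          ring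
      _ = _ := by rw [h, ← mul_assoc, e4]
  rw [e1]
  refine h2.congr_fun ?_
  intro n
  rw [← mul_assoc, ← Complex.ofReal_mul, ← Real.exp_add, neg_add_cancel, Real.exp_zero,
    Complex.ofReal_one, one_mul]

end

end Q63.LG
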