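import Pool.Agent.Q63.LG.Fo2

/-!
# Low frequencies (1): pointwise bounds for the terms
-/

set_option autoImplicit false

open MeasureTheory Filter Topology Complex Set FourierTransform ComplexConjugate
open Q97.MM

namespace Q63.LG

noncomputable section

theorem cc_norm_sq (T U : ℝ) (n : ℕ) (ξ : ℝ) :
    ‖cc T U n ξ‖ ^ 2 = 1 / ((n : ℝ) + 1) * (2 * Real.pi * U ^ 2 * Real.exp (-(U ^ 2 * om n ξ ^ 2))) *
      (T ^ 2 + (U ^ 2 * om n ξ - 1 / 2) ^ 2) := by
  have hn : (0 : ℝ) < (n : ℝ) + 1 := by positivity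
  unfold cc
  have e : -((om n ξ * T : ℝ) : ℂ) * I = ((-(om n ξ * T) : ℝ) : ℂ) * I := by push_cast; ring
  have e2 : (-1 / 2 + T * I + U ^ 2 * om n ξ : ℂ) =
      ((U ^ 2 * om n ξ - 1 / 2 : ℝ) : ℂ) + (T : ℂ) * I := by
    push_cast; ring
  rw [e, e2, norm_mul, norm_mul, Complex.norm_exp_ofReal_mul_I, one_mul, mul_pow,
    Complex.norm_real, Real.norm_eq_abs, sq_abs]
  have e3 : ‖(((U ^ 2 * om n ξ - 1 / 2 : ℝ) : ℂ) + (T : ℂ) * I)‖ ^ 2 =
      T ^ 2 + (U ^ 2 * om n ξ - 1 / 2) ^ 2 := by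
    rw [← Complex.normSq_eq_norm_sq, Complex.normSq_add_mul_I]
    ring
  rw [e3]
  congr 1
  unfold GI
  rw [mul_pow, mul_pow, mul_pow, Real.sq_sqrt (by positivity), ← Real.exp_nat_mul,
    ← Real.exp_nat_mul]
  have e4 : Real.exp (((2 : ℕ) : ℝ) * -(Real.log (n + 1) / 2)) = 1 / ((n : ℝ) + 1) := by
    have : ((2 : ℕ) : ℝ) * -(Real.log (n + 1) / 2) = -Real.log (n + 1) := by push_cast; ring
    rw [this, Real.exp_neg, Real.exp_log hn, one_div]
  have e5 : ((2 : ℕ) : ℝ) * -(U ^ 2 * om n ξ ^ 2 / 2) = -(U ^ 2 * om n ξ ^ 2) := by push_cast; ring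
  rw [e4, e5]

theorem le_exp_quarter (x : ℝ) : |x| ≤ Real.exp (x ^ 2 / 4) := by
  have h1 := Real.add_one_le_exp (x ^ 2 / 4)
  have h2 : |x| ≤ x ^ 2 / 4 + 1 := by
    rw [← sq_abs]
    nlinarith [sq_nonneg (|x| - 2)]
  linarith

theorem cc_norm_le {T U : ℝ} (hA : Adm T U) (n : ℕ) (ξ : ℝ) :
    ‖cc T U n ξ‖ ≤ 6 * T * U * Real.exp (-(U ^ 2 * om n ξ ^ 2 / 4)) := by
  have hU := hA.pos
  have hT := hA.1
  have hUT := hA.le
  set w := om n ξ with hw
  have hn : (0 : ℝ) < (n : ℝ) + 1 := by positivity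
  unfold cc
  have e : -((om n ξ * T : ℝ) : ℂ) * I = ((-(om n ξ * T) : ℝ) : ℂ) * I := by push_cast; ring
  rw [e, ← hw, norm_mul, norm_mul, Complex.norm_exp_ofReal_mul_I, one_mul, Complex.norm_real,
    Real.norm_eq_abs, abs_of_nonneg (by unfold GI; positivity)]
  have h1 : Real.exp (-(Real.log (n + 1) / 2)) ≤ 1 := by
    rw [Real.exp_le_one_iff]
    have := Real.log_nonneg (show (1 : ℝ) ≤ n + 1 by linarith [Nat.cast_nonneg (α := ℝ) n])
    linarith
  have h2 : Real.sqrt (2 * Real.pi) ≤ 2.6 := by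
    rw [Real.sqrt_le_left (by norm_num)]
    have := Real.pi_lt_d2
    norm_num
    linarith
  have h3 : ‖(-1 / 2 + T * I + U ^ 2 * w : ℂ)‖ ≤ 1 / 2 + T + U * (|U * w|) := by
    refine (norm_add_le _ _).trans ?_
    have g1 : ‖(-1 / 2 + T * I : ℂ)‖ ≤ 1 / 2 + T := by
      refine (norm_add_le _ _).trans ?_
      rw [norm_mul, Complex.norm_I, mul_one, Complex.norm_real, Real.norm_of_nonneg (by linarith)]
      norm_num
    have g2 : ‖(U ^ 2 * w : ℂ)‖ = U * |U * w| := by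
      rw [norm_mul, norm_pow, Complex.norm_real, Complex.norm_real, Real.norm_of_nonneg hU.le,
        Real.norm_eq_abs, abs_mul, abs_of_pos hU]
      ring
    rw [g2]
    linarith
  have h4 := le_exp_quarter (U * w)
  set X := Real.exp (U ^ 2 * w ^ 2 / 4) with hX
  have hX0 : 0 < X := Real.exp_pos _
  have hX1 : 1 ≤ X := Real.one_le_exp (by positivity)
  have e1 : Real.exp ((U * w) ^ 2 / 4) = X := by rw [hX, mul_pow]
  rw [e1] at h4
  have e2 : Real.exp (-(U ^ 2 * w ^ 2 / 2)) = X⁻¹ * X⁻¹ := by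
    rw [hX, ← Real.exp_neg, ← Real.exp_add]
    congr 1
    ring
  have e3 : Real.exp (-(U ^ 2 * w ^ 2 / 4)) = X⁻¹ := by rw [hX, ← Real.exp_neg]
  rw [e3]
  unfold GI
  rw [e2]
  have h5 : 1 / 2 + T + U * |U * w| ≤ 13 / 6 * T * X := by
    have g1 : U * |U * w| ≤ T * X := mul_le_mul hUT h4 (abs_nonneg _) (by linarith)
    nlinarith
  calc Real.exp (-(Real.log (n + 1) / 2)) * (Real.sqrt (2 * Real.pi) * U * (X⁻¹ * X⁻¹)) *
        ‖(-1 / 2 + T * I + U ^ 2 * w : ℂ)‖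
      ≤ 1 * (2.6 * U * (X⁻¹ * X⁻¹)) * (13 / 6 * T * X) := by
        gcongr
        exact h3.trans h5
    _ = (2.6 * (13 / 6)) * (T * U * X⁻¹) := by
        field_simp
    _ ≤ 6 * (T * U * X⁻¹) := by
        apply mul_le_mul_of_nonneg_right (by norm_num)
        positivity
    _ = _ := by ring

/-- The nearest integer. -/
theorem nearest (x : ℝ) (hx : 0 ≤ x) : ∃ n0 : ℕ, (n0 : ℝ) ≤ x ∧ ∀ n : ℕ, n ≠ n0 →
    1 / 2 ≤ |(n : ℝ) + 1 - x| := by
  rcases Nat.eq_zero_or_pos ⌊x + 1 / 2⌋₊ with h | h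
  · refine ⟨0, by simpa using hx, fun n hn => ?_⟩
    have h1 : x + 1 / 2 < 1 := Nat.floor_eq_zero.1 h
    have h2 : (1 : ℝ) ≤ n := by exact_mod_cast Nat.one_le_iff_ne_zero.2 hn
    rw [abs_of_nonneg (by linarith)]
    linarith
  · obtain ⟨m, hm⟩ : ∃ m, ⌊x + 1 / 2⌋₊ = m + 1 := ⟨⌊x + 1 / 2⌋₊ - 1, by omega⟩
    have h1 : ((m + 1 : ℕ) : ℝ) ≤ x + 1 / 2 := by
      rw [← hm]
      exact Nat.floor_le (by linarith)
    have h2 : x + 1 / 2 < ((m + 1 : ℕ) : ℝ) + 1 := by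
      rw [← hm]
      exact Nat.lt_floor_add_one _
    push_cast at h1 h2
    refine ⟨m, by linarith, fun n hn => ?_⟩
    rcases Nat.lt_or_gt_of_ne hn with h3 | h3
    · have h4 : (n : ℝ) + 1 ≤ m := by exact_mod_cast h3
      rw [abs_of_nonpos (by linarith)]
      linarith
    · have h4 : (m : ℝ) + 1 ≤ n := by exact_mod_cast h3
      rw [abs_of_nonneg (by linarith)]
      linarith

theorem om_lower {x X : ℝ} (hx : 0 < x) (hxX : x ≤ X) (hX : 1 ≤ X) {m : ℝ} (hm : 0 < m)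
    (h : 1 / 2 ≤ |m - x|) : 1 / (4 * X) ≤ |Real.log m - Real.log x| := by
  have hX0 : 0 < X := by linarith
  rcases le_total x m with h1 | h1
  · rw [abs_of_nonneg (by linarith)] at h
    have h2 := Real.one_sub_inv_le_log_of_pos (show 0 < m / x by positivity)
    rw [Real.log_div hm.ne' hx.ne', inv_div] at h2
    have h3 : 1 / (2 * X + 1) ≤ 1 - x / m := by
      have h4 : 1 - x / m = (m - x) / m := by field_simp
      rw [h4, div_le_div_iff₀ (by linarith) hm]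
      nlinarith
    have h5 : 1 / (4 * X) ≤ 1 / (2 * X + 1) := by
      apply one_div_le_one_div_of_le (by linarith)
      linarith
    exact (h5.trans (h3.trans h2)).trans (le_abs_self _)
  · rw [abs_of_nonpos (by linarith)] at h
    have h2 := Real.one_sub_inv_le_log_of_pos (show 0 < x / m by positivity)
    rw [Real.log_div hx.ne' hm.ne', inv_div] at h2
    have h3 : 1 / (2 * X) ≤ 1 - m / x := by
      have h4 : 1 - m / x = (x - m) / x := by field_simp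
      rw [h4, div_le_div_iff₀ (by linarith) hx]
      nlinarith
    have h5 : 1 / (4 * X) ≤ 1 / (2 * X) := by
      apply one_div_le_one_div_of_le (by linarith)
      linarith
    have h6 : Real.log x - Real.log m ≤ |Real.log m - Real.log x| := by
      rw [abs_sub_comm]
      exact le_abs_self _
    linarith

/-- the point `e^v` of a frequency -/
def xx (ξ : ℝ) : ℝ := Real.exp (-(2 * Real.pi * ξ))

theorem xx_pos (ξ : ℝ) : 0 < xx ξ := Real.exp_pos _

theorem om_eq (n : ℕ) (ξ : ℝ) : om n ξ = Real.log (n + 1) - Real.log (xx ξ) := by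
  unfold om xx
  rw [Real.log_exp]
  ring

theorem exp_om_le {U : ℝ} (hU : 1 ≤ U) (n : ℕ) (ξ : ℝ) :
    Real.exp (-(U ^ 2 * om n ξ ^ 2 / 8)) ≤ Real.exp 8 * xx ξ ^ 2 * (1 / ((n : ℝ) + 1) ^ 2) := by
  have hn : (0 : ℝ) < (n : ℝ) + 1 := by positivity
  have e : Real.exp 8 * xx ξ ^ 2 * (1 / ((n : ℝ) + 1) ^ 2) =
      Real.exp (8 - 2 * om n ξ) := by
    rw [om_eq, ← exp_two_log, ← Real.exp_log (xx_pos ξ), ← Real.exp_nat_mul, ← Real.exp_add,
      ← Real.exp_add, Real.log_exp]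
    congr 1
    push_cast
    ring
  rw [e]
  apply Real.exp_le_exp.2
  have h1 : om n ξ ^ 2 ≤ U ^ 2 * om n ξ ^ 2 := by
    have : 1 ≤ U ^ 2 := by nlinarith
    nlinarith [sq_nonneg (om n ξ)]
  nlinarith [sq_nonneg (om n ξ - 8)]

/-- the constant -/
def S2 : ℝ := ∑' n : ℕ, 1 / ((n : ℝ) + 1) ^ 2

theorem S2_nonneg : 0 ≤ S2 := tsum_nonneg fun n => by positivity

/-- A sum dominated by one term. -/
theorem one_term {c : ℕ → ℂ} {s : ℂ} (hs : HasSum c s) {g : ℕ → ℝ} (hg : Summable g) {a b : ℝ}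
    (hg0 : ∀ n, 0 ≤ g n) (ha : 0 ≤ a) (hb : 0 ≤ b) (h1 : ∀ n, ‖c n‖ ≤ a * g n) {n0 : ℕ}
    (h2 : ∀ n, n ≠ n0 → ‖c n‖ ≤ b * g n) {F : Finset ℕ} (hF : n0 ∈ F) :
    |‖s‖ ^ 2 - ∑ n ∈ F, ‖c n‖ ^ 2| ≤ 3 * (a * b * (∑' n, g n) ^ 2) := by
  classical
  set G := ∑' n, g n with hG
  have hG0 : 0 ≤ G := tsum_nonneg hg0
  have hgn : ∀ n, g n ≤ G := fun n => hg.le_tsum n fun m _ => hg0 m
  have hcs : Summable fun n => ‖c n‖ := Summable.of_nonneg_of_le (fun n => norm_nonneg _) h1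
    (hg.mul_left a)
  set d : ℕ → ℂ := fun n => if n = n0 then 0 else c n with hd
  have hdn : ∀ n, ‖d n‖ ≤ b * g n := by
    intro n
    rw [hd]
    simp only
    split_ifs with h
    · rw [norm_zero]; exact mul_nonneg hb (hg0 n)
    · exact h2 n h
  have hds : Summable fun n => ‖d n‖ := Summable.of_nonneg_of_le (fun n => norm_nonneg _) hdn
    (hg.mul_left b)
  have hsum : s = c n0 + ∑' n, d n := by
    rw [← hs.tsum_eq]
    exact hs.summable.tsum_eq_add_tsum_ite n0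
  have hD : ‖∑' n, d n‖ ≤ b * G := by
    refine (norm_tsum_le_tsum_norm hds).trans ?_
    rw [hG, ← tsum_mul_left]
    exact hds.tsum_le_tsum hdn (hg.mul_left b)
  have hS : ‖s‖ ≤ a * G := by
    rw [← hs.tsum_eq]
    refine (norm_tsum_le_tsum_norm hcs).trans ?_
    rw [hG, ← tsum_mul_left]
    exact hcs.tsum_le_tsum h1 (hg.mul_left a)
  have hc0 : ‖c n0‖ ≤ a * G := (h1 n0).trans (mul_le_mul_of_nonneg_left (hgn n0) ha)
  have hdiff : |‖s‖ ^ 2 - ‖c n0‖ ^ 2| ≤ 2 * (a * b * G ^ 2) := by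
    have e1 : ‖s‖ ^ 2 - ‖c n0‖ ^ 2 = (‖s‖ - ‖c n0‖) * (‖s‖ + ‖c n0‖) := by ring
    rw [e1, abs_mul, abs_of_nonneg (by positivity : 0 ≤ ‖s‖ + ‖c n0‖)]
    have e2 : |‖s‖ - ‖c n0‖| ≤ b * G := by
      refine (abs_norm_sub_norm_le _ _).trans ?_
      rw [hsum, add_sub_cancel_left]
      exact hD
    calc |‖s‖ - ‖c n0‖| * (‖s‖ + ‖c n0‖) ≤ (b * G) * (a * G + a * G) := by
          gcongr
      _ = _ := by ring
  have hrest : ∑ n ∈ F, ‖c n‖ ^ 2 = ‖c n0‖ ^ 2 + ∑ n ∈ F.erase n0, ‖c n‖ ^ 2 :=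
    (Finset.add_sum_erase F (fun n => ‖c n‖ ^ 2) hF).symm
  have hr0 : 0 ≤ ∑ n ∈ F.erase n0, ‖c n‖ ^ 2 := Finset.sum_nonneg fun n _ => by positivity
  have hr1 : ∑ n ∈ F.erase n0, ‖c n‖ ^ 2 ≤ a * b * G ^ 2 := by
    calc ∑ n ∈ F.erase n0, ‖c n‖ ^ 2 ≤ ∑ n ∈ F.erase n0, (a * G) * (b * g n) := by
          apply Finset.sum_le_sum
          intro n hn
          have hn0 : n ≠ n0 := Finset.ne_of_mem_erase hn
          rw [sq]
          exact mul_le_mul ((h1 n).trans (mul_le_mul_of_nonneg_left (hgn n) ha)) (h2 n hn0)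
            (norm_nonneg _) (by positivity)
      _ = (a * G) * b * ∑ n ∈ F.erase n0, g n := by
          rw [Finset.mul_sum]
          exact Finset.sum_congr rfl fun n _ => by ring
      _ ≤ (a * G) * b * G := by
          apply mul_le_mul_of_nonneg_left _ (by positivity)
          exact hg.sum_le_tsum _ fun n _ => hg0 n
      _ = _ := by ring
  rw [hrest]
  rw [abs_le] at hdiff ⊢
  constructor <;> linarith [hdiff.1, hdiff.2]

/-- **The spectral density at low frequencies.** -/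
theorem dens_low {T U X : ℝ} (hA : Adm T U) (hX : 1 ≤ X) {M : ℕ} (hM : X < M) {ξ : ℝ}
    (hξ : xx ξ ≤ X) :
    |dens (FF 1 T U) (1 / 2) ξ - ∑ n ∈ Finset.range M, ‖cc T U n ξ‖ ^ 2| ≤
      3 * ((6 * T * U * Real.exp 8 * S2) ^ 2) * Real.exp (-(U ^ 2 / (128 * X ^ 2))) * xx ξ ^ 4 := by
  have hU := hA.pos
  have hT : 0 < T := by linarith [hA.1]
  have hx := xx_pos ξ
  have hX0 : 0 < X := by linarith
  obtain ⟨n0, hn0, hn⟩ := nearest (xx ξ) hx.le
  have hn0M : n0 ∈ Finset.range M := by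
    rw [Finset.mem_range]
    have : (n0 : ℝ) < M := by linarith
    exact_mod_cast this
  set E := Real.exp (-(U ^ 2 / (128 * X ^ 2))) with hE
  set g : ℕ → ℝ := fun n => 1 / ((n : ℝ) + 1) ^ 2 with hg
  set a := 6 * T * U * (Real.exp 8 * xx ξ ^ 2) with ha
  have ha0 : 0 ≤ a := by positivity
  have key := one_term (four_hasSum T ξ hU) (g := g) summable_sq (a := a) (b := a * E)
    (fun n => by positivity) ha0 (by positivity)
    (fun n => by
      refine (cc_norm_le hA n ξ).trans ?_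
      have h1 := exp_om_le hA.2.1 n ξ
      have h2 : Real.exp (-(U ^ 2 * om n ξ ^ 2 / 4)) ≤ Real.exp (-(U ^ 2 * om n ξ ^ 2 / 8)) := by
        apply Real.exp_le_exp.2
        have : 0 ≤ U ^ 2 * om n ξ ^ 2 := by positivity
        linarith
      calc 6 * T * U * Real.exp (-(U ^ 2 * om n ξ ^ 2 / 4))
          ≤ 6 * T * U * (Real.exp 8 * xx ξ ^ 2 * (1 / ((n : ℝ) + 1) ^ 2)) := by
            gcongr
            exact h2.trans h1
        _ = _ := by rw [ha, hg]; ring)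
    (n0 := n0)
    (fun n hne => by
      refine (cc_norm_le hA n ξ).trans ?_
      have h1 := exp_om_le hA.2.1 n ξ
      have h3 := om_lower hx hξ hX (m := (n : ℝ) + 1) (by positivity) (hn n hne)
      rw [← om_eq] at h3
      have h4 : 1 / (16 * X ^ 2) ≤ om n ξ ^ 2 := by
        rw [← sq_abs (om n ξ)]
        have := pow_le_pow_left₀ (by positivity) h3 2
        refine le_trans (le_of_eq ?_) this
        field_simp
        norm_num
      have h2 : Real.exp (-(U ^ 2 * om n ξ ^ 2 / 4)) ≤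
          E * Real.exp (-(U ^ 2 * om n ξ ^ 2 / 8)) := by
        rw [hE, ← Real.exp_add]
        apply Real.exp_le_exp.2
        have h5 : U ^ 2 / (128 * X ^ 2) ≤ U ^ 2 * om n ξ ^ 2 / 8 := by
          calc U ^ 2 / (128 * X ^ 2) = U ^ 2 * (1 / (16 * X ^ 2)) / 8 := by
                field_simp
                norm_num
            _ ≤ _ := by gcongr
        linarith
      calc 6 * T * U * Real.exp (-(U ^ 2 * om n ξ ^ 2 / 4))
          ≤ 6 * T * U * (E * (Real.exp 8 * xx ξ ^ 2 * (1 / ((n : ℝ) + 1) ^ 2))) := by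
            gcongr
            exact h2.trans (mul_le_mul_of_nonneg_left h1 (Real.exp_pos _).le)
        _ = _ := by rw [ha, hg]; ring) hn0M
  refine key.trans (le_of_eq ?_)
  rw [ha, hE]
  unfold S2
  ring

end

end Q63.LG
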