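import Pool.Agent.Q63.LG.Lo1

/-!
# Low frequencies (2): the diagonal terms and the sum over the integers
-/

set_option autoImplicit false

open MeasureTheory Filter Topology Complex Set FourierTransform ComplexConjugate
open Q97.MM

namespace Q63.LG

noncomputable section

theorem gauss_lin_int {b : ℝ} (hb : 0 < b) (l : ℝ) :
    Integrable (fun ξ : ℝ => Real.exp (-(b * (2 * Real.pi * ξ + l) ^ 2))) := by
  have h1 := integrable_exp_neg_mul_sq hb
  have h2 : Integrable (fun x : ℝ => Real.exp (-b * (x + l) ^ 2)) := h1.comp_add_right l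
  have h3 := h2.comp_mul_left' (R := 2 * Real.pi) (by positivity)
  refine h3.congr (Eventually.of_forall fun ξ => ?_)
  simp only
  congr 1
  ring

theorem gauss_lin {b : ℝ} (l : ℝ) :
    ∫ ξ : ℝ, Real.exp (-(b * (2 * Real.pi * ξ + l) ^ 2)) = Real.sqrt (Real.pi / b) / (2 * Real.pi) := by
  have h1 := integral_gaussian b
  have h2 := integral_add_right_eq_self (μ := (volume : Measure ℝ))
    (fun x : ℝ => Real.exp (-b * x ^ 2)) l
  have h3 := Measure.integral_comp_mul_left (fun x : ℝ => Real.exp (-b * (x + l) ^ 2)) (2 * Real.pi)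
  have e : ∀ ξ : ℝ, Real.exp (-(b * (2 * Real.pi * ξ + l) ^ 2)) =
      Real.exp (-b * (2 * Real.pi * ξ + l) ^ 2) := by
    intro ξ
    congr 1
    ring
  rw [integral_congr_ae (Eventually.of_forall e), h3, h2, h1, smul_eq_mul,
    abs_of_pos (by positivity)]
  ring

/-- A test function. -/
structure Tst (ψ : ℝ → ℝ) (B K θ : ℝ) : Prop where
  B0 : 0 ≤ B
  K0 : 0 ≤ K
  bd : ∀ u, |ψ u| ≤ B
  lip : ∀ u v, |ψ u - ψ v| ≤ K * |u - v|
  zero : ∀ u, θ ≤ u → ψ u = 0

theorem Tst.cont {ψ : ℝ → ℝ} {B K θ : ℝ} (h : Tst ψ B K θ) : Continuous ψ := by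
  have hl : LipschitzWith (Real.toNNReal K) ψ := LipschitzWith.of_dist_le_mul fun x y => by
    rw [Real.dist_eq, Real.dist_eq, Real.coe_toNNReal _ h.K0]
    exact h.lip x y
  exact hl.continuous

/-- The diagonal terms. -/
theorem diag {ψ : ℝ → ℝ} {B K θ : ℝ} (h : Tst ψ B K θ) {T U : ℝ} (hA : Adm T U) (n : ℕ) :
    Integrable (fun ξ => ψ (-(4 * Real.pi * ξ / Real.log T)) * ‖cc T U n ξ‖ ^ 2) ∧
    |(∫ ξ, ψ (-(4 * Real.pi * ξ / Real.log T)) * ‖cc T U n ξ‖ ^ 2) -
      Real.sqrt Real.pi * T ^ 2 * U * (ψ (2 * Real.log (n + 1) / Real.log T) * (1 / ((n : ℝ) + 1)))| ≤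
      1 / ((n : ℝ) + 1) * (6 * K * T ^ 2 / Real.log T + 7 * B * U ^ 3) := by
  have hU := hA.pos
  have hU1 := hA.2.1
  have hT : 0 < T := by linarith [hA.1]
  have hL : 0 < Real.log T := by linarith [hA.log]
  have hn : (0 : ℝ) < (n : ℝ) + 1 := by positivity
  have hB := h.B0
  have hK := h.K0
  set L := Real.log T with hLdef
  set p := ψ (2 * Real.log (n + 1) / L) with hp
  set m : ℝ → ℝ := fun ξ => 1 / ((n : ℝ) + 1) * (2 * Real.pi * U ^ 2 * T ^ 2 *
    Real.exp (-(U ^ 2 * om n ξ ^ 2))) with hm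
  have hmi : Integrable m := ((gauss_lin_int (b := U ^ 2) (by positivity)
    (Real.log (n + 1))).const_mul _).const_mul _
  have hmI : ∫ ξ, m ξ = Real.sqrt Real.pi * T ^ 2 * U * (1 / ((n : ℝ) + 1)) := by
    have h1 : ∫ ξ : ℝ, Real.exp (-(U ^ 2 * om n ξ ^ 2)) =
        Real.sqrt (Real.pi / U ^ 2) / (2 * Real.pi) := gauss_lin (b := U ^ 2) (Real.log (n + 1))
    rw [hm]
    simp only
    rw [integral_const_mul, integral_const_mul, h1, Real.sqrt_div' _ (by positivity),
      Real.sqrt_sq hU.le]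
    field_simp
  set r : ℝ → ℝ := fun ξ => 1 / ((n : ℝ) + 1) * ((4 * Real.pi * K * U * T ^ 2 / L +
    5 * Real.pi * B * U ^ 4) * Real.exp (-(U ^ 2 / 2 * om n ξ ^ 2))) with hr
  have hri : Integrable r := ((gauss_lin_int (b := U ^ 2 / 2) (by positivity)
    (Real.log (n + 1))).const_mul _).const_mul _
  have hrI : ∫ ξ, r ξ ≤ 1 / ((n : ℝ) + 1) * (6 * K * T ^ 2 / L + 7 * B * U ^ 3) := by
    have h1 : ∫ ξ : ℝ, Real.exp (-(U ^ 2 / 2 * om n ξ ^ 2)) =
        Real.sqrt (Real.pi / (U ^ 2 / 2)) / (2 * Real.pi) :=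
      gauss_lin (b := U ^ 2 / 2) (Real.log (n + 1))
    have h2 : Real.sqrt (Real.pi / (U ^ 2 / 2)) ≤ 2.6 / U := by
      rw [Real.sqrt_le_left (by positivity)]
      have := Real.pi_lt_d2
      rw [div_pow, div_div_eq_mul_div]
      apply div_le_div_of_nonneg_right _ (by positivity)
      norm_num
      linarith
    rw [hr]
    simp only
    rw [integral_const_mul, integral_const_mul, h1]
    apply mul_le_mul_of_nonneg_left _ (by positivity)
    have hpi := Real.pi_pos
    calc (4 * Real.pi * K * U * T ^ 2 / L + 5 * Real.pi * B * U ^ 4) *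
          (Real.sqrt (Real.pi / (U ^ 2 / 2)) / (2 * Real.pi))
        ≤ (4 * Real.pi * K * U * T ^ 2 / L + 5 * Real.pi * B * U ^ 4) *
          ((2.6 / U) / (2 * Real.pi)) := by gcongr
      _ = 5.2 * K * T ^ 2 / L + 6.5 * B * U ^ 3 := by
          field_simp
          ring
      _ ≤ 6 * K * T ^ 2 / L + 7 * B * U ^ 3 := by
          gcongr <;> norm_num
  have hpt : ∀ ξ, ‖ψ (-(4 * Real.pi * ξ / L)) * ‖cc T U n ξ‖ ^ 2 - p * m ξ‖ ≤ r ξ := by
    intro ξ
    set w := om n ξ with hw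
    set Y := Real.exp (U ^ 2 * w ^ 2 / 4) with hY
    have hY0 : 0 < Y := Real.exp_pos _
    have hY1 : 1 ≤ Y := Real.one_le_exp (by positivity)
    have hwY : |U * w| ≤ Y := by
      have := le_exp_quarter (U * w)
      rwa [mul_pow] at this
    have e1 : Real.exp (-(U ^ 2 * w ^ 2)) = (Y ^ 4)⁻¹ := by
      rw [hY, ← Real.exp_nat_mul, ← Real.exp_neg]
      congr 1
      push_cast
      ring
    have e2 : Real.exp (-(U ^ 2 / 2 * w ^ 2)) = (Y ^ 2)⁻¹ := by
      rw [hY, ← Real.exp_nat_mul, ← Real.exp_neg]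
      congr 1
      push_cast
      ring
    have hpsi : |ψ (-(4 * Real.pi * ξ / L)) - p| ≤ K * (2 / L * |w|) := by
      refine (h.lip _ _).trans (le_of_eq ?_)
      congr 1
      have e3 : -(4 * Real.pi * ξ / L) - 2 * Real.log (n + 1) / L = -(2 / L * w) := by
        rw [hw]
        unfold om
        field_simp
        ring
      rw [e3, abs_neg, abs_mul, abs_of_pos (by positivity)]
    have e4 : ψ (-(4 * Real.pi * ξ / L)) * ‖cc T U n ξ‖ ^ 2 - p * m ξ =
        (ψ (-(4 * Real.pi * ξ / L)) - p) * m ξ + ψ (-(4 * Real.pi * ξ / L)) *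
          (1 / ((n : ℝ) + 1) * (2 * Real.pi * U ^ 2 * Real.exp (-(U ^ 2 * w ^ 2)) *
            (U ^ 2 * w - 1 / 2) ^ 2)) := by
      rw [cc_norm_sq, hm]
      ring
    have hm0 : 0 ≤ m ξ := by rw [hm]; positivity
    rw [e4]
    refine (norm_add_le _ _).trans ?_
    have e6 : ‖(ψ (-(4 * Real.pi * ξ / L)) - p) * m ξ‖ = |ψ (-(4 * Real.pi * ξ / L)) - p| * m ξ := by
      rw [norm_mul, Real.norm_eq_abs, Real.norm_of_nonneg hm0]
    have e7 : ‖ψ (-(4 * Real.pi * ξ / L)) *
          (1 / ((n : ℝ) + 1) * (2 * Real.pi * U ^ 2 * Real.exp (-(U ^ 2 * w ^ 2)) *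
            (U ^ 2 * w - 1 / 2) ^ 2))‖ = |ψ (-(4 * Real.pi * ξ / L))| *
          (1 / ((n : ℝ) + 1) * (2 * Real.pi * U ^ 2 * Real.exp (-(U ^ 2 * w ^ 2)) *
            (U ^ 2 * w - 1 / 2) ^ 2)) := by
      rw [norm_mul, Real.norm_eq_abs, Real.norm_of_nonneg (by positivity)]
    rw [e6, e7]
    have i1 : |w| ≤ Y / U := by
      rw [le_div_iff₀ hU]
      rw [abs_mul, abs_of_pos hU] at hwY
      linarith
    have hYi : (Y ^ 4)⁻¹ * Y ≤ (Y ^ 2)⁻¹ := by
      rw [show (Y ^ 4)⁻¹ * Y = (Y ^ 3)⁻¹ by field_simp]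
      apply inv_anti₀ (by positivity)
      exact pow_le_pow_right₀ hY1 (by norm_num)
    have s1 : |ψ (-(4 * Real.pi * ξ / L)) - p| * m ξ ≤
        1 / ((n : ℝ) + 1) * (4 * Real.pi * K * U * T ^ 2 / L * (Y ^ 2)⁻¹) := by
      calc |ψ (-(4 * Real.pi * ξ / L)) - p| * m ξ ≤ (K * (2 / L * (Y / U))) * m ξ := by
            apply mul_le_mul_of_nonneg_right _ hm0
            refine hpsi.trans ?_
            gcongr
        _ = 1 / ((n : ℝ) + 1) * (4 * Real.pi * K * U * T ^ 2 / L * ((Y ^ 4)⁻¹ * Y)) := by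
            rw [hm]
            simp only
            rw [← hw, e1]
            field_simp
            ring
        _ ≤ _ := by gcongr
    have s2 : |ψ (-(4 * Real.pi * ξ / L))| *
          (1 / ((n : ℝ) + 1) * (2 * Real.pi * U ^ 2 * Real.exp (-(U ^ 2 * w ^ 2)) *
            (U ^ 2 * w - 1 / 2) ^ 2)) ≤ 1 / ((n : ℝ) + 1) * (5 * Real.pi * B * U ^ 4 * (Y ^ 2)⁻¹) := by
      have i2 : (U ^ 2 * w - 1 / 2) ^ 2 ≤ 5 / 2 * U ^ 2 * Y ^ 2 := by
        have j1 : (U ^ 2 * w - 1 / 2) ^ 2 ≤ 2 * (U ^ 2 * w) ^ 2 + 1 / 2 := by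
          nlinarith [sq_nonneg (U ^ 2 * w + 1 / 2)]
        have j2 : (U ^ 2 * w) ^ 2 ≤ U ^ 2 * Y ^ 2 := by
          have := pow_le_pow_left₀ (abs_nonneg _) hwY 2
          rw [sq_abs] at this
          calc (U ^ 2 * w) ^ 2 = U ^ 2 * (U * w) ^ 2 := by ring
            _ ≤ _ := by gcongr
        have j3 : 1 ≤ U ^ 2 * Y ^ 2 := by
          have := one_le_pow₀ (n := 2) hU1
          have := one_le_pow₀ (n := 2) hY1
          nlinarith
        linarith
      calc _ ≤ B * (1 / ((n : ℝ) + 1) * (2 * Real.pi * U ^ 2 * (Y ^ 4)⁻¹ *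
            (5 / 2 * U ^ 2 * Y ^ 2))) := by
            rw [e1]
            gcongr
            exact h.bd _
        _ = _ := by
            field_simp
    rw [hr]
    simp only
    rw [← hw, e2]
    calc _ ≤ 1 / ((n : ℝ) + 1) * (4 * Real.pi * K * U * T ^ 2 / L * (Y ^ 2)⁻¹) +
          1 / ((n : ℝ) + 1) * (5 * Real.pi * B * U ^ 4 * (Y ^ 2)⁻¹) := add_le_add s1 s2
      _ = _ := by ring
  have hcont : Continuous (fun ξ => ψ (-(4 * Real.pi * ξ / L)) * ‖cc T U n ξ‖ ^ 2) := by
    have h1 : Continuous (fun ξ => cc T U n ξ) := by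
      unfold cc GI om
      fun_prop
    exact (h.cont.comp (by fun_prop)).mul (h1.norm.pow 2)
  have hdi : Integrable (fun ξ => ψ (-(4 * Real.pi * ξ / L)) * ‖cc T U n ξ‖ ^ 2 - p * m ξ) :=
    hri.mono' (hcont.aestronglyMeasurable.sub (hmi.const_mul p).aestronglyMeasurable)
      (Eventually.of_forall hpt)
  have hint : Integrable (fun ξ => ψ (-(4 * Real.pi * ξ / L)) * ‖cc T U n ξ‖ ^ 2) := by
    refine (hdi.add (hmi.const_mul p)).congr (Eventually.of_forall fun ξ => ?_)
    simp only [Pi.add_apply]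
    ring
  refine ⟨hint, ?_⟩
  have e5 : Real.sqrt Real.pi * T ^ 2 * U * (p * (1 / ((n : ℝ) + 1))) = ∫ ξ, p * m ξ := by
    rw [integral_const_mul, hmI]
    ring
  rw [e5, ← integral_sub hint (hmi.const_mul p), ← Real.norm_eq_abs]
  exact (norm_integral_le_of_norm_le hri (Eventually.of_forall hpt)).trans hrI

/-- The sum over the integers. -/
theorem riem {ψ : ℝ → ℝ} {B K θ : ℝ} (h : Tst ψ B K θ) {L : ℝ} (hL : 0 < L) {M : ℕ}
    (hM : θ ≤ 2 * Real.log (M + 1) / L) :
    |(∑ n ∈ Finset.range M, ψ (2 * Real.log (n + 1) / L) * (1 / ((n : ℝ) + 1))) -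
      L / 2 * ∫ u in (0 : ℝ)..θ, ψ u| ≤ (B + 2 * K / L) * S2 := by
  have hB := h.B0
  have hK := h.K0
  have hc := h.cont
  set a : ℕ → ℝ := fun n => 2 * Real.log (n + 1) / L with ha
  have ha0 : a 0 = 0 := by rw [ha]; simp
  have hii : ∀ x y : ℝ, IntervalIntegrable ψ volume x y := fun x y => hc.intervalIntegrable _ _
  have hsum := intervalIntegral.sum_integral_adjacent_intervals (f := ψ) (μ := volume) (a := a)
    (n := M) (fun k _ => hii _ _)
  have hend : ∫ u in (0 : ℝ)..θ, ψ u = ∫ u in a 0..a M, ψ u := by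
    rw [ha0, ← intervalIntegral.integral_add_adjacent_intervals (hii 0 θ) (hii θ (a M))]
    have h0 : ∫ u in θ..a M, ψ u = 0 := by
      apply intervalIntegral.integral_zero_ae
      refine Eventually.of_forall fun u hu => ?_
      rw [uIoc_of_le hM] at hu
      exact h.zero u hu.1.le
    rw [h0, add_zero]
  rw [hend, ← hsum, Finset.mul_sum, ← Finset.sum_sub_distrib]
  refine (Finset.abs_sum_le_sum_abs _ _).trans ?_
  have hterm : ∀ n ∈ Finset.range M, |ψ (2 * Real.log (n + 1) / L) * (1 / ((n : ℝ) + 1)) -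
      L / 2 * ∫ u in a n..a (n + 1), ψ u| ≤ (B + 2 * K / L) * (1 / ((n : ℝ) + 1) ^ 2) := by
    intro n _
    have hn : (0 : ℝ) < (n : ℝ) + 1 := by positivity
    set l := Real.log ((n : ℝ) + 1 + 1) - Real.log ((n : ℝ) + 1) with hl
    have hd : a (n + 1) - a n = 2 / L * l := by
      rw [ha]
      simp only
      push_cast
      ring
    have hl1 : l ≤ 1 / ((n : ℝ) + 1) := by
      have h1 := Real.log_le_sub_one_of_pos (show 0 < ((n : ℝ) + 1 + 1) / ((n : ℝ) + 1) by positivity)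
      rw [Real.log_div (by positivity) (by positivity)] at h1
      refine h1.trans (le_of_eq ?_)
      field_simp
      ring
    have hl2 : 1 / ((n : ℝ) + 1 + 1) ≤ l := by
      have h1 := Real.one_sub_inv_le_log_of_pos
        (show 0 < ((n : ℝ) + 1 + 1) / ((n : ℝ) + 1) by positivity)
      rw [Real.log_div (by positivity) (by positivity)] at h1
      refine le_trans (le_of_eq ?_) h1
      field_simp
      ring
    have hl0 : 0 ≤ l := le_trans (by positivity) hl2
    have hle : a n ≤ a (n + 1) := by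
      have : 0 ≤ 2 / L * l := by positivity
      linarith
    have h1 : ∫ u in a n..a (n + 1), ψ u = (a (n + 1) - a n) * ψ (a n) +
        ∫ u in a n..a (n + 1), (ψ u - ψ (a n)) := by
      rw [intervalIntegral.integral_sub (hii _ _) intervalIntegrable_const,
        intervalIntegral.integral_const, smul_eq_mul]
      ring
    have h2 : |∫ u in a n..a (n + 1), (ψ u - ψ (a n))| ≤ K * (a (n + 1) - a n) ^ 2 := by
      have h3 := intervalIntegral.norm_integral_le_of_norm_le_const (a := a n) (b := a (n + 1))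
        (C := K * (a (n + 1) - a n)) (f := fun u => ψ u - ψ (a n)) (fun u hu => by
          rw [uIoc_of_le hle] at hu
          refine (h.lip _ _).trans ?_
          apply mul_le_mul_of_nonneg_left _ hK
          rw [abs_of_nonneg (by linarith [hu.1])]
          linarith [hu.2])
      rw [Real.norm_eq_abs, abs_of_nonneg (by linarith : 0 ≤ a (n + 1) - a n)] at h3
      refine h3.trans (le_of_eq ?_)
      ring
    have h4 : ψ (2 * Real.log (n + 1) / L) * (1 / ((n : ℝ) + 1)) -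
        L / 2 * ∫ u in a n..a (n + 1), ψ u = ψ (a n) * (1 / ((n : ℝ) + 1) - l) -
          L / 2 * ∫ u in a n..a (n + 1), (ψ u - ψ (a n)) := by
      rw [h1, hd]
      have : ψ (2 * Real.log (n + 1) / L) = ψ (a n) := rfl
      rw [this]
      field_simp
      ring
    rw [h4]
    refine (abs_sub _ _).trans ?_
    rw [abs_mul, abs_mul, abs_of_pos (by positivity : 0 < L / 2)]
    have h5 : |1 / ((n : ℝ) + 1) - l| ≤ 1 / ((n : ℝ) + 1) ^ 2 := by
      rw [abs_of_nonneg (by linarith)]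
      have h6 : 1 / ((n : ℝ) + 1) - 1 / ((n : ℝ) + 1 + 1) ≤ 1 / ((n : ℝ) + 1) ^ 2 := by
        have h7 : 1 / ((n : ℝ) + 1) - 1 / ((n : ℝ) + 1 + 1) =
            1 / (((n : ℝ) + 1) * ((n : ℝ) + 1 + 1)) := by
          field_simp
          ring
        rw [h7]
        apply one_div_le_one_div_of_le (by positivity)
        nlinarith
      linarith
    have h8 : L / 2 * |∫ u in a n..a (n + 1), (ψ u - ψ (a n))| ≤
        2 * K / L * (1 / ((n : ℝ) + 1) ^ 2) := by
      calc L / 2 * |∫ u in a n..a (n + 1), (ψ u - ψ (a n))|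
          ≤ L / 2 * (K * (2 / L * l) ^ 2) := by
            gcongr
            rw [← hd]
            exact h2
        _ = 2 * K / L * l ^ 2 := by
            field_simp
        _ ≤ 2 * K / L * (1 / ((n : ℝ) + 1)) ^ 2 := by gcongr
        _ = _ := by rw [one_div_pow]
    calc |ψ (a n)| * |1 / ((n : ℝ) + 1) - l| + L / 2 * |∫ u in a n..a (n + 1), (ψ u - ψ (a n))|
        ≤ B * (1 / ((n : ℝ) + 1) ^ 2) + 2 * K / L * (1 / ((n : ℝ) + 1) ^ 2) := by
          gcongr
          exact h.bd _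
      _ = _ := by ring
  calc _ ≤ ∑ n ∈ Finset.range M, (B + 2 * K / L) * (1 / ((n : ℝ) + 1) ^ 2) :=
        Finset.sum_le_sum hterm
    _ = (B + 2 * K / L) * ∑ n ∈ Finset.range M, (1 / ((n : ℝ) + 1) ^ 2) := by
        rw [Finset.mul_sum]
    _ ≤ (B + 2 * K / L) * S2 := by
        apply mul_le_mul_of_nonneg_left _ (by positivity)
        exact summable_sq.sum_le_tsum _ fun n _ => by positivity

end

end Q63.LG
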