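import Pool.Agent.Q63.LG.Lo2

/-!
# Low frequencies (3): the spectral measure has constant density at low frequencies
-/

set_option autoImplicit false

open MeasureTheory Filter Topology Complex Set FourierTransform ComplexConjugate
open Q97.MM

namespace Q63.LG

noncomputable section

theorem harm (M : ℕ) : ∑ n ∈ Finset.range M, 1 / ((n : ℝ) + 1) ≤ 1 + Real.log M := by
  have h := harmonic_le_one_add_log M
  refine le_trans (le_of_eq ?_) h
  unfold harmonic
  push_cast
  exact Finset.sum_congr rfl fun n _ => by rw [one_div]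

theorem decay {δ : ℝ} (hδ : 0 < δ) :
    Tendsto (fun T : ℝ => T ^ 3 * Real.exp (-(T ^ δ / 128))) atTop (𝓝 0) := by
  have h1 := tendsto_rpow_mul_exp_neg_mul_atTop_nhds_zero (3 / δ) (1 / 128) (by norm_num)
  have h2 := h1.comp (tendsto_rpow_atTop hδ)
  refine h2.congr' ?_
  filter_upwards [eventually_gt_atTop 0] with T hT
  simp only [Function.comp]
  rw [← Real.rpow_mul hT.le, mul_div_cancel₀ _ hδ.ne']
  have e : T ^ (3 : ℝ) = T ^ 3 := by
    rw [← Real.rpow_natCast]
    norm_num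
  rw [e]
  congr 2
  ring

theorem dens_int {T U : ℝ} (hA : Adm T U) : Continuous (dens (FF 1 T U) (1 / 2)) ∧
    Integrable (dens (FF 1 T U) (1 / 2)) := by
  obtain ⟨M, δ, hM, hδ, hbd⟩ := FF_bd 1 T hA.pos
  have h1 := rep (FF_differentiable 1 T U) hδ hM hbd (c := 1 / 2) (x := 1 / 2)
    (by norm_num) (by norm_num) (by norm_num) (by norm_num)
  have h2 := dens_measurable (FF_differentiable 1 T U) hδ hbd (c := 1 / 2) (by norm_num) (by norm_num)
  refine ⟨h2, h1.1.congr (Eventually.of_forall fun ξ => ?_)⟩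
  simp

/-- **Constant density at low frequencies.** -/
theorem low {ε θ : ℝ} (hθ0 : 0 < θ) (hθ : θ < 2 * ε) (hθ1 : θ ≤ 1) {ψ : ℝ → ℝ}
    {B K : ℝ} (h : Tst ψ B K θ) {η : ℝ} (hη : 0 < η) :
    ∀ᶠ T : ℝ in atTop, ∀ U : ℝ, Adm T U → T ^ ε ≤ U →
      |(∫ ξ, ψ (-(4 * Real.pi * ξ / Real.log T)) * dens (FF 1 T U) (1 / 2) ξ) -
        Real.sqrt Real.pi * T ^ 2 * U * (Real.log T / 2 * ∫ u in (0 : ℝ)..θ, ψ u)| ≤
        η * (T ^ 2 * U * Real.log T) := by
  have hB := h.B0
  have hK := h.K0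
  have hS2 := S2_nonneg
  set C1 := 3 * (6 * Real.exp 8 * S2) ^ 2 with hC1
  have hC10 : 0 ≤ C1 := by positivity
  have hdec := (decay (show 0 < 2 * ε - θ by linarith)).const_mul (B * Real.pi * C1)
  rw [mul_zero] at hdec
  have hlog := Real.tendsto_log_atTop
  filter_upwards [hdec.eventually (gt_mem_nhds (show (0 : ℝ) < η / 3 by positivity)),
    hlog.eventually_ge_atTop (72 * K / η), hlog.eventually_ge_atTop (84 * B / η),
    hlog.eventually_ge_atTop (3 * Real.sqrt Real.pi * (B + 2 * K) * S2 / η),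
    eventually_ge_atTop 4] with T h1 h2 h3 h4 hT4 U hA hTU
  have hU := hA.pos
  have hU1 := hA.2.1
  have hT : 0 < T := by linarith
  have hT1 : 1 ≤ T := by linarith
  have hL1 := hA.log
  have hL : 0 < Real.log T := by linarith
  set L := Real.log T with hLdef
  set X := T ^ (θ / 2) with hX
  have hX1 : 1 ≤ X := Real.one_le_rpow hT1 (by positivity)
  have hX0 : 0 < X := by linarith
  have hlogX : Real.log X = θ / 2 * L := Real.log_rpow hT _
  have hX2 : X ^ 2 = T ^ θ := by
    rw [hX, ← Real.rpow_natCast, ← Real.rpow_mul hT.le]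
    congr 1
    push_cast
    ring
  have hX2T : X ^ 2 ≤ T := by
    rw [hX2]
    calc T ^ θ ≤ T ^ (1 : ℝ) := Real.rpow_le_rpow_of_exponent_le hT1 hθ1
      _ = T := Real.rpow_one T
  set M := ⌊X⌋₊ + 1 with hM
  have hXM : X < (M : ℝ) := by
    rw [hM]
    push_cast
    exact Nat.lt_floor_add_one X
  have hMT : (M : ℝ) ≤ T := by
    have h5 : (M : ℝ) ≤ X + 1 := by
      rw [hM]
      push_cast
      linarith [Nat.floor_le hX0.le]
    nlinarith [sq_nonneg (X - 2)]
  have hM1 : (0 : ℝ) < M := by linarith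
  have hMθ : θ ≤ 2 * Real.log (M + 1) / L := by
    rw [le_div_iff₀ hL]
    have h5 := Real.log_le_log hX0 (show X ≤ (M : ℝ) + 1 by linarith)
    rw [hlogX] at h5
    linarith
  obtain ⟨hdc, hdi⟩ := dens_int hA
  set D := dens (FF 1 T U) (1 / 2) with hD
  set u : ℝ → ℝ := fun ξ => -(4 * Real.pi * ξ / L) with hu
  have huc : Continuous u := by rw [hu]; fun_prop
  have hψD : Integrable (fun ξ => ψ (u ξ) * D ξ) := by
    refine (hdi.norm.const_mul B).mono' ((h.cont.comp huc).mul hdc).aestronglyMeasurable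
      (Eventually.of_forall fun ξ => ?_)
    rw [norm_mul]
    exact mul_le_mul_of_nonneg_right (h.bd _) (norm_nonneg _)
  have hψc : ∀ n ∈ Finset.range M, Integrable (fun ξ => ψ (u ξ) * ‖cc T U n ξ‖ ^ 2) :=
    fun n _ => (diag h hA n).1
  have hψS : Integrable (fun ξ => ∑ n ∈ Finset.range M, ψ (u ξ) * ‖cc T U n ξ‖ ^ 2) :=
    integrable_finsetSum _ hψc
  -- the remainder
  set ξ0 := -(Real.log X / (2 * Real.pi)) with hξ0
  set E := Real.exp (-(U ^ 2 / (128 * X ^ 2))) with hE
  have hpi := Real.pi_pos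
  have hrem : ∀ ξ, ‖ψ (u ξ) * D ξ - ∑ n ∈ Finset.range M, ψ (u ξ) * ‖cc T U n ξ‖ ^ 2‖ ≤
      B * (C1 * (T ^ 2 * U ^ 2) * E * X ^ 4) * (1 + (ξ - ξ0) ^ 2)⁻¹ := by
    intro ξ
    rw [← Finset.mul_sum, ← mul_sub, norm_mul, Real.norm_eq_abs, Real.norm_eq_abs]
    by_cases hx : xx ξ ≤ X
    · have k1 := dens_low hA hX1 hXM hx
      have k2 : xx ξ ^ 4 ≤ X ^ 4 * (1 + (ξ - ξ0) ^ 2)⁻¹ := by
        have k3 : ξ0 ≤ ξ := by
          have := Real.log_le_log (xx_pos ξ) hx
          unfold xx at this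
          rw [Real.log_exp] at this
          rw [hξ0, neg_le, div_eq_mul_inv]
          have h6 : -ξ = (-(2 * Real.pi * ξ)) * (2 * Real.pi)⁻¹ := by field_simp
          rw [h6]
          exact mul_le_mul_of_nonneg_right this (by positivity)
        have k4 : xx ξ = X * Real.exp (-(2 * Real.pi * (ξ - ξ0))) := by
          unfold xx
          nth_rewrite 1 [← Real.exp_log hX0]
          rw [← Real.exp_add]
          congr 1
          rw [hξ0]
          field_simp
          ring
        rw [k4, mul_pow]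
        apply mul_le_mul_of_nonneg_left _ (by positivity)
        rw [← Real.exp_nat_mul]
        set t := ξ - ξ0 with ht
        have ht0 : 0 ≤ t := by rw [ht]; linarith
        have k5 : ((4 : ℕ) : ℝ) * -(2 * Real.pi * t) = -(8 * Real.pi * t) := by push_cast; ring
        rw [k5, Real.exp_neg]
        apply inv_anti₀ (by positivity)
        have k6 := Real.quadratic_le_exp_of_nonneg (show 0 ≤ 8 * Real.pi * t by positivity)
        have k7 : t ^ 2 ≤ (8 * Real.pi * t) ^ 2 / 2 := by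
          have : 1 ≤ Real.pi ^ 2 := by nlinarith [Real.pi_gt_three]
          nlinarith [sq_nonneg t]
        have k8 : 0 ≤ 8 * Real.pi * t := by positivity
        linarith
      calc |ψ (u ξ)| * |D ξ - ∑ n ∈ Finset.range M, ‖cc T U n ξ‖ ^ 2|
          ≤ B * (3 * ((6 * T * U * Real.exp 8 * S2) ^ 2) * E * xx ξ ^ 4) :=
            mul_le_mul (h.bd _) k1 (abs_nonneg _) hB
        _ ≤ B * (3 * ((6 * T * U * Real.exp 8 * S2) ^ 2) * E * (X ^ 4 * (1 + (ξ - ξ0) ^ 2)⁻¹)) := by
            gcongr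
        _ = _ := by rw [hC1]; ring
    · push Not at hx
      have k1 : ψ (u ξ) = 0 := by
        apply h.zero
        have k2 := Real.log_lt_log hX0 hx
        unfold xx at k2
        rw [Real.log_exp, hlogX] at k2
        rw [hu]
        simp only
        rw [← neg_div, le_div_iff₀ hL]
        linarith
      rw [k1, abs_zero, zero_mul]
      positivity
  have hint1 : Integrable (fun ξ : ℝ => B * (C1 * (T ^ 2 * U ^ 2) * E * X ^ 4) *
      (1 + (ξ - ξ0) ^ 2)⁻¹) := (integrable_inv_one_add_sq.comp_sub_right ξ0).const_mul _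
  have herr1 : |(∫ ξ, ψ (u ξ) * D ξ) - ∫ ξ, ∑ n ∈ Finset.range M, ψ (u ξ) * ‖cc T U n ξ‖ ^ 2| ≤
      η / 3 * (T ^ 2 * U * L) := by
    rw [← integral_sub hψD hψS, ← Real.norm_eq_abs]
    refine (norm_integral_le_of_norm_le hint1 (Eventually.of_forall hrem)).trans ?_
    have k1 := integral_sub_right_eq_self (μ := (volume : Measure ℝ))
      (fun ξ : ℝ => (1 + ξ ^ 2)⁻¹) ξ0
    rw [integral_const_mul, k1, integral_univ_inv_one_add_sq]
    have k2 : E ≤ Real.exp (-(T ^ (2 * ε - θ) / 128)) := by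
      rw [hE]
      apply Real.exp_le_exp.2
      have k3 : T ^ (2 * ε - θ) ≤ U ^ 2 / X ^ 2 := by
        rw [le_div_iff₀ (by positivity), hX2, ← Real.rpow_add hT, sub_add_cancel]
        calc T ^ (2 * ε) = (T ^ ε) ^ 2 := by
              rw [← Real.rpow_natCast, ← Real.rpow_mul hT.le]
              congr 1
              push_cast
              ring
          _ ≤ U ^ 2 := by
              have : 0 ≤ T ^ ε := by positivity
              exact pow_le_pow_left₀ this hTU 2
      have k4 : U ^ 2 / (128 * X ^ 2) = U ^ 2 / X ^ 2 / 128 := by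
        field_simp
      rw [k4]
      linarith
    have k5 : X ^ 4 ≤ T ^ 2 := by
      have := pow_le_pow_left₀ (by positivity) hX2T 2
      calc X ^ 4 = (X ^ 2) ^ 2 := by ring
        _ ≤ T ^ 2 := this
    calc B * (C1 * (T ^ 2 * U ^ 2) * E * X ^ 4) * Real.pi
        = (T ^ 2 * U) * (B * Real.pi * C1 * (X ^ 4 * U * E)) := by ring
      _ ≤ (T ^ 2 * U) * (B * Real.pi * C1 * (T ^ 2 * T * Real.exp (-(T ^ (2 * ε - θ) / 128)))) := by
          gcongr
          exact hA.le
      _ = (T ^ 2 * U) * (B * Real.pi * C1 * (T ^ 3 * Real.exp (-(T ^ (2 * ε - θ) / 128)))) := by ring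
      _ ≤ (T ^ 2 * U) * (η / 3) := by gcongr
      _ ≤ (T ^ 2 * U) * (η / 3 * L) := by
          apply mul_le_mul_of_nonneg_left _ (by positivity)
          nlinarith
      _ = _ := by ring
  -- the diagonal
  have herr2 : |(∫ ξ, ∑ n ∈ Finset.range M, ψ (u ξ) * ‖cc T U n ξ‖ ^ 2) -
      Real.sqrt Real.pi * T ^ 2 * U *
        (∑ n ∈ Finset.range M, ψ (2 * Real.log (n + 1) / L) * (1 / ((n : ℝ) + 1)))| ≤
      η / 3 * (T ^ 2 * U * L) := by
    rw [integral_finsetSum _ hψc, Finset.mul_sum, ← Finset.sum_sub_distrib]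
    refine (Finset.abs_sum_le_sum_abs _ _).trans ?_
    refine (Finset.sum_le_sum fun n _ => (diag h hA n).2).trans ?_
    rw [← Finset.sum_mul]
    have k1 := harm M
    have k2 : Real.log M ≤ L := Real.log_le_log hM1 hMT
    have k3 : 1 + Real.log M ≤ 2 * L := by linarith
    have k4 : 72 * K ≤ η * L := by
      rw [div_le_iff₀ hη] at h2
      linarith
    have k5 : 84 * B ≤ η * L := by
      rw [div_le_iff₀ hη] at h3
      linarith
    have k6 : U * L ≤ T := by
      have := hA.2.2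
      rwa [le_div_iff₀ hL] at this
    calc (∑ n ∈ Finset.range M, 1 / ((n : ℝ) + 1)) * (6 * K * T ^ 2 / L + 7 * B * U ^ 3)
        ≤ (2 * L) * (6 * K * T ^ 2 / L + 7 * B * U ^ 3) := by
          apply mul_le_mul_of_nonneg_right (k1.trans k3) (by positivity)
      _ = 12 * K * T ^ 2 + 14 * B * L * U * U ^ 2 := by
          field_simp
          ring
      _ ≤ η / 6 * L * T ^ 2 * U + η / 6 * (L * U) * (U * L) ^ 2 := by
          have a1 : 12 * K * T ^ 2 ≤ η / 6 * L * T ^ 2 * U := by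
            have b1 : 12 * K ≤ η / 6 * L := by linarith
            have b2 : 0 ≤ η / 6 * L := by positivity
            calc 12 * K * T ^ 2 ≤ η / 6 * L * T ^ 2 := by gcongr
              _ ≤ η / 6 * L * T ^ 2 * U := le_mul_of_one_le_right (by positivity) hU1
          have a2 : 14 * B * L * U * U ^ 2 ≤ η / 6 * (L * U) * (U * L) ^ 2 := by
            have b1 : 14 * B ≤ η / 6 * L := by linarith
            have b2 : η / 6 * L ≤ η / 6 * L ^ 2 := by
              have : L ≤ L ^ 2 := by nlinarith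
              gcongr
            calc 14 * B * L * U * U ^ 2 = 14 * B * (L * U * U ^ 2) := by ring
              _ ≤ η / 6 * L ^ 2 * (L * U * U ^ 2) := by
                  apply mul_le_mul_of_nonneg_right (b1.trans b2) (by positivity)
              _ = _ := by ring
          linarith
      _ ≤ η / 6 * L * T ^ 2 * U + η / 6 * (L * U) * T ^ 2 := by gcongr
      _ = _ := by ring
  -- the sum
  have herr3 : |Real.sqrt Real.pi * T ^ 2 * U *
        (∑ n ∈ Finset.range M, ψ (2 * Real.log (n + 1) / L) * (1 / ((n : ℝ) + 1))) -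
      Real.sqrt Real.pi * T ^ 2 * U * (L / 2 * ∫ v in (0 : ℝ)..θ, ψ v)| ≤
      η / 3 * (T ^ 2 * U * L) := by
    rw [← mul_sub, abs_mul, abs_of_nonneg (by positivity : 0 ≤ Real.sqrt Real.pi * T ^ 2 * U)]
    have k1 := riem h hL hMθ
    have k2 : (B + 2 * K / L) * S2 ≤ (B + 2 * K) * S2 := by
      apply mul_le_mul_of_nonneg_right _ hS2
      have : 2 * K / L ≤ 2 * K := div_le_self (by positivity) hL1
      linarith
    have k3 : Real.sqrt Real.pi * ((B + 2 * K) * S2) ≤ η / 3 * L := by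
      rw [div_le_iff₀ hη] at h4
      linarith
    calc Real.sqrt Real.pi * T ^ 2 * U * |(∑ n ∈ Finset.range M,
          ψ (2 * Real.log (n + 1) / L) * (1 / ((n : ℝ) + 1))) - L / 2 * ∫ v in (0 : ℝ)..θ, ψ v|
        ≤ Real.sqrt Real.pi * T ^ 2 * U * ((B + 2 * K) * S2) := by
          gcongr
          exact k1.trans k2
      _ = (T ^ 2 * U) * (Real.sqrt Real.pi * ((B + 2 * K) * S2)) := by ring
      _ ≤ (T ^ 2 * U) * (η / 3 * L) := by gcongr
      _ = _ := by ring
  have e := (abs_sub_le (∫ ξ, ψ (u ξ) * D ξ)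
    (∫ ξ, ∑ n ∈ Finset.range M, ψ (u ξ) * ‖cc T U n ξ‖ ^ 2)
    (Real.sqrt Real.pi * T ^ 2 * U * (L / 2 * ∫ v in (0 : ℝ)..θ, ψ v)))
  have e' := (abs_sub_le (∫ ξ, ∑ n ∈ Finset.range M, ψ (u ξ) * ‖cc T U n ξ‖ ^ 2)
    (Real.sqrt Real.pi * T ^ 2 * U *
        (∑ n ∈ Finset.range M, ψ (2 * Real.log (n + 1) / L) * (1 / ((n : ℝ) + 1))))
    (Real.sqrt Real.pi * T ^ 2 * U * (L / 2 * ∫ v in (0 : ℝ)..θ, ψ v)))
  linarith

end

end Q63.LG
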