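import Mathlib
import Pool.Agent.H821R3.Wirt

/-!
# Wirtinger's inequality on the short gaps between the zeros of a function of one real variable
-/

set_option autoImplicit false

open MeasureTheory Filter Topology Set

namespace Q63.LG

noncomputable section

/-- Wirtinger's inequality between two zeros. -/
theorem wirt_real {f f' : ℝ → ℝ} (hf : ∀ x, HasDerivAt f (f' x) x) (hf' : Continuous f') {a b : ℝ}
    (hab : a < b) (ha : f a = 0) (hb : f b = 0) :
    ∫ x in a..b, f x ^ 2 ≤ ((b - a) / Real.pi) ^ 2 * ∫ x in a..b, f' x ^ 2 := by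
  have hpi := Real.pi_pos
  set c := (b - a) / Real.pi with hc
  have hc0 : 0 < c := div_pos (by linarith) hpi
  have hcp : c * Real.pi = b - a := by rw [hc]; field_simp
  have hg : ∀ θ, HasDerivAt (fun θ => f (c * θ + a)) (c * f' (c * θ + a)) θ := by
    intro θ
    have h1 : HasDerivAt (fun θ : ℝ => c * θ + a) c θ := by
      simpa using ((hasDerivAt_id θ).const_mul c).add_const a
    have h2 := (hf (c * θ + a)).comp θ h1
    rw [mul_comm]
    exact h2
  have hg' : Continuous (fun θ => c * f' (c * θ + a)) := by fun_prop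
  have key := Pool.Agent.H821R3.wirt_seg _ _ hg hg' 0 (by simpa using ha)
    (by
      show f (c * (0 + Real.pi) + a) = 0
      rw [zero_add, hcp, sub_add_cancel]
      exact hb)
  have e1 : ∫ θ in (0 : ℝ)..(0 + Real.pi), f (c * θ + a) ^ 2 = c⁻¹ * ∫ x in a..b, f x ^ 2 := by
    have := intervalIntegral.integral_comp_mul_add (a := 0) (b := 0 + Real.pi)
      (fun x => f x ^ 2) hc0.ne' a
    rw [this, smul_eq_mul]
    congr 2
    · ring
    · rw [zero_add, hcp]; ring
  have e2 : ∫ θ in (0 : ℝ)..(0 + Real.pi), (c * f' (c * θ + a)) ^ 2 =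
      c * ∫ x in a..b, f' x ^ 2 := by
    have := intervalIntegral.integral_comp_mul_add (a := 0) (b := 0 + Real.pi)
      (fun x => (c * f' x) ^ 2) hc0.ne' a
    rw [this, smul_eq_mul]
    have e3 : ∫ x in (c * 0 + a)..(c * (0 + Real.pi) + a), (c * f' x) ^ 2 =
        c ^ 2 * ∫ x in a..b, f' x ^ 2 := by
      rw [← intervalIntegral.integral_const_mul]
      have i1 : c * 0 + a = a := by ring
      have i2 : c * (0 + Real.pi) + a = b := by rw [zero_add, hcp]; ring
      rw [i1, i2]
      congr 1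
      funext x
      ring
    rw [e3]
    field_simp
  rw [e1, e2] at key
  have h3 : ∫ x in a..b, f x ^ 2 = c * (c⁻¹ * ∫ x in a..b, f x ^ 2) := by
    field_simp
  rw [h3]
  calc c * (c⁻¹ * ∫ x in a..b, f x ^ 2) ≤ c * (c * ∫ x in a..b, f' x ^ 2) :=
        mul_le_mul_of_nonneg_left key hc0.le
    _ = c ^ 2 * ∫ x in a..b, f' x ^ 2 := by ring

theorem wirt_complex {f f' : ℝ → ℂ} (hf : ∀ x, HasDerivAt f (f' x) x) (hf' : Continuous f')
    {a b : ℝ} (hab : a < b) (ha : f a = 0) (hb : f b = 0) :
    ∫ x in a..b, ‖f x‖ ^ 2 ≤ ((b - a) / Real.pi) ^ 2 * ∫ x in a..b, ‖f' x‖ ^ 2 := by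
  have hfc : Continuous f := continuous_iff_continuousAt.2 (fun x => (hf x).continuousAt)
  have hre : ∀ x, HasDerivAt (fun x => (f x).re) (f' x).re x := fun x => by
    exact (Complex.reCLM.hasFDerivAt (x := f x)).comp_hasDerivAt x (hf x)
  have him : ∀ x, HasDerivAt (fun x => (f x).im) (f' x).im x := fun x => by
    exact (Complex.imCLM.hasFDerivAt (x := f x)).comp_hasDerivAt x (hf x)
  have h1 := wirt_real hre (Complex.continuous_re.comp hf') hab (by simp [ha]) (by simp [hb])
  have h2 := wirt_real him (Complex.continuous_im.comp hf') hab (by simp [ha]) (by simp [hb])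
  have e : ∀ g : ℝ → ℂ, Continuous g → ∫ x in a..b, ‖g x‖ ^ 2 =
      (∫ x in a..b, (g x).re ^ 2) + ∫ x in a..b, (g x).im ^ 2 := by
    intro g hg
    rw [← intervalIntegral.integral_add]
    · congr 1
      funext x
      rw [← Complex.normSq_eq_norm_sq, Complex.normSq_apply]
      ring
    · exact ((Complex.continuous_re.comp hg).pow 2).intervalIntegrable _ _
    · exact ((Complex.continuous_im.comp hg).pow 2).intervalIntegrable _ _
  rw [e f hfc, e f' hf', mul_add]
  exact add_le_add h1 h2

/-- the points between two zeros of `f` at distance at most `r` -/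
def SG (f : ℝ → ℂ) (r : ℝ) : Set ℝ := {t | ∃ γ γ' : ℝ, f γ = 0 ∧ f γ' = 0 ∧ γ ≤ t ∧ t ≤ γ' ∧
  γ' - γ ≤ r}

/-- Between two zeros. -/
theorem wirt_fin {f f' : ℝ → ℂ} (hf : ∀ x, HasDerivAt f (f' x) x) (hf' : Continuous f')
    {r : ℝ} (hr : 0 ≤ r) (hS : MeasurableSet (SG f r)) (n : ℕ) :
    ∀ a b : ℝ, a ≤ b → f a = 0 → f b = 0 → ({x | x ∈ Ioo a b ∧ f x = 0}).Finite →
      ({x | x ∈ Ioo a b ∧ f x = 0}).ncard ≤ n →
      ∫ x in a..b, (SG f r).indicator (fun x => ‖f x‖ ^ 2) x ≤
        (r / Real.pi) ^ 2 * ∫ x in a..b, ‖f' x‖ ^ 2 := by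
  have hpi := Real.pi_pos
  have hfc : Continuous f := continuous_iff_continuousAt.2 (fun x => (hf x).continuousAt)
  have hii : ∀ a b : ℝ, IntervalIntegrable (fun x => ‖f x‖ ^ 2) volume a b := fun a b =>
    (hfc.norm.pow 2).intervalIntegrable _ _
  have hii' : ∀ a b : ℝ, IntervalIntegrable (fun x => ‖f' x‖ ^ 2) volume a b := fun a b =>
    (hf'.norm.pow 2).intervalIntegrable _ _
  have hind : ∀ a b : ℝ, IntervalIntegrable ((SG f r).indicator (fun x => ‖f x‖ ^ 2)) volume a b := by
    intro a b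
    rw [intervalIntegrable_iff]
    exact (intervalIntegrable_iff.1 (hii a b)).indicator hS
  induction n with
  | zero =>
    intro a b hab ha hb hfin hcard
    have hempty : {x | x ∈ Ioo a b ∧ f x = 0} = ∅ := by
      rw [← Set.ncard_eq_zero hfin]
      omega
    rcases hab.eq_or_lt with rfl | hlt
    · simp
    by_cases hle : b - a ≤ r
    · calc ∫ x in a..b, (SG f r).indicator (fun x => ‖f x‖ ^ 2) x ≤ ∫ x in a..b, ‖f x‖ ^ 2 := by
            apply intervalIntegral.integral_mono_on hab (hind a b) (hii a b)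
            intro x _
            exact Set.indicator_le_self' (fun y _ => by positivity) x
        _ ≤ ((b - a) / Real.pi) ^ 2 * ∫ x in a..b, ‖f' x‖ ^ 2 := wirt_complex hf hf' hlt ha hb
        _ ≤ (r / Real.pi) ^ 2 * ∫ x in a..b, ‖f' x‖ ^ 2 := by
            apply mul_le_mul_of_nonneg_right _
              (intervalIntegral.integral_nonneg hab fun x _ => by positivity)
            apply pow_le_pow_left₀ (div_nonneg (by linarith) hpi.le)
            gcongr
    · have h0 : ∫ x in a..b, (SG f r).indicator (fun x => ‖f x‖ ^ 2) x = 0 := by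
        rw [intervalIntegral.integral_of_le hab, integral_Ioc_eq_integral_Ioo]
        apply setIntegral_eq_zero_of_forall_eq_zero
        intro t ht
        apply Set.indicator_of_notMem
        rintro ⟨γ, γ', h1, h2, h3, h4, h5⟩
        have g1 : γ ≤ a := by
          by_contra hcon
          push Not at hcon
          have : γ ∈ {x | x ∈ Ioo a b ∧ f x = 0} := ⟨⟨hcon, lt_of_le_of_lt h3 ht.2⟩, h1⟩
          rw [hempty] at this
          exact this
        have g2 : b ≤ γ' := by
          by_contra hcon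
          push Not at hcon
          have : γ' ∈ {x | x ∈ Ioo a b ∧ f x = 0} := ⟨⟨lt_of_lt_of_le ht.1 h4, hcon⟩, h2⟩
          rw [hempty] at this
          exact this
        linarith
      rw [h0]
      have : 0 ≤ ∫ x in a..b, ‖f' x‖ ^ 2 :=
        intervalIntegral.integral_nonneg hab fun x _ => by positivity
      positivity
  | succ n ih =>
    intro a b hab ha hb hfin hcard
    by_cases hempty : {x | x ∈ Ioo a b ∧ f x = 0} = ∅
    · exact ih a b hab ha hb hfin (by rw [hempty]; simp)
    obtain ⟨c, hc, hc0⟩ := Set.nonempty_iff_ne_empty.2 hempty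
    have s1 : {x | x ∈ Ioo a c ∧ f x = 0} ⊂ {x | x ∈ Ioo a b ∧ f x = 0} := by
      refine ⟨fun x hx => ⟨⟨hx.1.1, hx.1.2.trans hc.2⟩, hx.2⟩, fun hcon => ?_⟩
      have := hcon ⟨hc, hc0⟩
      exact lt_irrefl _ this.1.2
    have s2 : {x | x ∈ Ioo c b ∧ f x = 0} ⊂ {x | x ∈ Ioo a b ∧ f x = 0} := by
      refine ⟨fun x hx => ⟨⟨hc.1.trans hx.1.1, hx.1.2⟩, hx.2⟩, fun hcon => ?_⟩
      have := hcon ⟨hc, hc0⟩
      exact lt_irrefl _ this.1.1
    have c1 := Set.ncard_lt_ncard s1 hfin
    have c2 := Set.ncard_lt_ncard s2 hfin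
    have i1 := ih a c hc.1.le ha hc0 (hfin.subset s1.1) (by omega)
    have i2 := ih c b hc.2.le hc0 hb (hfin.subset s2.1) (by omega)
    rw [← intervalIntegral.integral_add_adjacent_intervals (hind a c) (hind c b),
      ← intervalIntegral.integral_add_adjacent_intervals (hii' a c) (hii' c b), mul_add]
    exact add_le_add i1 i2

/-- **Wirtinger's inequality on the short gaps.** -/
theorem wirt_gaps {f f' : ℝ → ℂ} (hf : ∀ x, HasDerivAt f (f' x) x) (hf' : Continuous f')
    {r : ℝ} (hr : 0 ≤ r) (hS : MeasurableSet (SG f r)) (hcl : IsClosed {x | f x = 0})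
    (hfin : ∀ R : ℝ, ({x | x ∈ Icc (-R) R ∧ f x = 0}).Finite)
    (hi : Integrable (fun x => ‖f x‖ ^ 2)) (hi' : Integrable (fun x => ‖f' x‖ ^ 2)) :
    ∫ x in SG f r, ‖f x‖ ^ 2 ≤ (r / Real.pi) ^ 2 * ∫ x, ‖f' x‖ ^ 2 := by
  have hpi := Real.pi_pos
  have hfc : Continuous f := continuous_iff_continuousAt.2 (fun x => (hf x).continuousAt)
  set q := (SG f r).indicator (fun x => ‖f x‖ ^ 2) with hq
  have hqi : Integrable q := hi.indicator hS
  have hq0 : ∀ x, 0 ≤ q x := fun x => Set.indicator_nonneg (fun y _ => by positivity) x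
  have hI : 0 ≤ ∫ x, ‖f' x‖ ^ 2 := integral_nonneg fun x => by positivity
  rw [← integral_indicator hS]
  change ∫ x, q x ≤ _
  have hlim : Tendsto (fun R : ℝ => ∫ x in (-R)..R, q x) atTop (𝓝 (∫ x, q x)) :=
    intervalIntegral_tendsto_integral hqi tendsto_neg_atTop_atBot tendsto_id
  refine le_of_tendsto hlim ?_
  filter_upwards [eventually_ge_atTop (0 : ℝ)] with R hR
  -- the zeros in a larger interval
  set K := R + r with hK
  have hK0 : 0 ≤ K := by positivity
  set Z : Set ℝ := {x | x ∈ Icc (-K) K ∧ f x = 0} with hZ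
  have hZf : Z.Finite := hfin K
  rcases Z.eq_empty_or_nonempty with hZe | hZn
  · have h0 : ∫ x in (-R)..R, q x = 0 := by
      rw [intervalIntegral.integral_of_le (by linarith)]
      apply setIntegral_eq_zero_of_forall_eq_zero
      intro t ht
      apply Set.indicator_of_notMem
      rintro ⟨γ, γ', h1, h2, h3, h4, h5⟩
      have : γ ∈ Z := ⟨⟨by linarith [ht.1, ht.2], by linarith [ht.1, ht.2]⟩, h1⟩
      rw [hZe] at this
      exact this
    rw [h0]
    positivity
  · obtain ⟨a, haZ, ha⟩ := Set.exists_min_image Z id hZf hZn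
    obtain ⟨b, hbZ, hb⟩ := Set.exists_max_image Z id hZf hZn
    have hab : a ≤ b := ha b hbZ
    have hsub : {x | x ∈ Ioo a b ∧ f x = 0} ⊆ Z := fun x hx =>
      ⟨⟨by linarith [haZ.1.1, hx.1.1], by linarith [hbZ.1.2, hx.1.2]⟩, hx.2⟩
    have key := wirt_fin hf hf' hr hS _ a b hab haZ.2 hbZ.2 (hZf.subset hsub) le_rfl
    have h1 : ∫ x in (-R)..R, q x ≤ ∫ x in a..b, q x := by
      rw [intervalIntegral.integral_of_le (by linarith), intervalIntegral.integral_of_le hab]
      have h2 : ∫ x in Ioc (-R) R, q x = ∫ x, (Ioc (-R) R).indicator q x :=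
        (integral_indicator measurableSet_Ioc).symm
      have h3 : ∫ x in Ioc a b, q x = ∫ x in Icc a b, q x := (integral_Icc_eq_integral_Ioc).symm
      have h4 : ∫ x in Icc a b, q x = ∫ x, (Icc a b).indicator q x :=
        (integral_indicator measurableSet_Icc).symm
      rw [h2, h3, h4]
      apply integral_mono (hqi.indicator measurableSet_Ioc) (hqi.indicator measurableSet_Icc)
      intro t
      by_cases ht : t ∈ Ioc (-R) R
      · rw [Set.indicator_of_mem ht]
        by_cases htS : t ∈ SG f r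
        · obtain ⟨γ, γ', h1, h2, h3, h4, h5⟩ := htS
          have g1 : γ ∈ Z := ⟨⟨by linarith [ht.1, ht.2], by linarith [ht.1, ht.2]⟩, h1⟩
          have g2 : γ' ∈ Z := ⟨⟨by linarith [ht.1, ht.2], by linarith [ht.1, ht.2]⟩, h2⟩
          have g3 : a ≤ γ := ha γ g1
          have g4 : γ' ≤ b := hb γ' g2
          have g5 : t ∈ Icc a b := ⟨by linarith, by linarith⟩
          rw [Set.indicator_of_mem g5]
        · have : q t = 0 := Set.indicator_of_notMem htS _
          rw [this]
          exact Set.indicator_nonneg (fun y _ => hq0 y) t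
      · rw [Set.indicator_of_notMem ht]
        exact Set.indicator_nonneg (fun y _ => hq0 y) t
    refine h1.trans (key.trans ?_)
    apply mul_le_mul_of_nonneg_left _ (by positivity)
    rw [intervalIntegral.integral_of_le hab]
    exact setIntegral_le_integral hi' (Eventually.of_forall fun x => by positivity)

end

end Q63.LG
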