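import Pool.Agent.Q63.LG.En
import Pool.Agent.Q63.LG.Wr
import Pool.Agent.Q63.RZ.Mx3

/-!
# Short gaps carry little of the second moment
-/

set_option autoImplicit false

open Complex Filter Topology Set MeasureTheory Metric
open Q97.MM

namespace Q63.LG

noncomputable section

theorem transfer_set1 (k : ℕ) {ε : ℝ} (hε : 0 < ε) :
    ∀ᶠ T : ℝ in atTop, ∀ U : ℝ, Adm T U → ∀ E : Set ℝ, MeasurableSet E →
      T ^ (2 * k) * ∫ y in E, ‖riemannZeta (((1 / 2 : ℝ) : ℂ) + y * I)‖ ^ (2 * k) * wt T U y ≤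
        (1 + ε) * (∫ y in E, ‖Z1 (((1 / 2 : ℝ) : ℂ) + y * I)‖ ^ (2 * k) * wt T U y) + ε * V0 k T U := by
  obtain ⟨d, hd, hd'⟩ := near_one k hε
  obtain ⟨c, hc, hc'⟩ := V0_lower k
  set η := min (1 / 2) (d / 8) with hη
  have hη0 : 0 < η := lt_min (by norm_num) (by positivity)
  have hη1 : η ≤ 1 / 2 := min_le_left _ _
  have hη2 : η ≤ d / 8 := min_le_right _ _
  have hK := KK_nonneg (2 * (2 * k))
  have htail := (tail_tendsto (2 * (2 * k)) hη0).const_mul
    (2 * 180 ^ (2 * k) * KK (2 * (2 * k)) / c)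
  rw [mul_zero] at htail
  filter_upwards [htail.eventually (gt_mem_nhds hε), eventually_ge_atTop (8 / d)] with T h1 h4 U h E hE
  have hT : 0 < T := by linarith [h.1]
  have hU := h.pos
  have hL := h.log
  have hV0 := V0_pos k h
  obtain ⟨x, hx⟩ : ∃ x : ℝ, x = 1 / 2 := ⟨_, rfl⟩
  rw [← hx]
  have hx1 : 1 / 4 ≤ x := by norm_num [hx]
  have hx2 : x ≤ 3 / 4 := by norm_num [hx]
  set E' := Real.exp (-((η * Real.log T) ^ 2 / 2)) with hE'
  have hT1 : 1 ≤ T ^ (2 * k) := one_le_pow₀ (by linarith [h.1])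
  have hpq : ∀ y : ℝ, |y - T| ≤ η * T →
      |‖Z1 (x + y * I)‖ ^ (2 * k) - T ^ (2 * k) * ‖riemannZeta (x + y * I)‖ ^ (2 * k)| ≤
        ε * ‖Z1 (x + y * I)‖ ^ (2 * k) := by
    intro y hy
    have hy' : |y - T| ≤ 1 / 2 * T := hy.trans (mul_le_mul_of_nonneg_right hη1 hT.le)
    have hy1 : T / 2 ≤ y := by linarith [(abs_le.mp hy').1]
    have hne := ne_one_of_re (x := x) (by linarith) y
    set m := ‖(x : ℂ) + y * I - 1‖ with hm
    have hm0 : 0 < m := norm_pos_iff.mpr (sub_ne_zero.mpr hne)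
    have hm1 : y ≤ m := by
      have := Complex.abs_im_le_norm ((x : ℂ) + y * I - 1)
      have e : ((x : ℂ) + y * I - 1).im = y := by simp
      rw [e] at this
      exact (le_abs_self y).trans this
    have hm2 : m ≤ 1 + y := by
      have e : (x : ℂ) + y * I - 1 = ((x - 1 : ℝ) : ℂ) + y * I := by push_cast; ring
      rw [hm, e]
      refine (norm_add_le _ _).trans ?_
      rw [norm_mul, Complex.norm_I, mul_one, Complex.norm_real, Complex.norm_real,
        Real.norm_eq_abs, Real.norm_eq_abs, abs_of_nonneg (by linarith : 0 ≤ y)]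
      have : |x - 1| ≤ 1 := by
        rw [abs_le]
        constructor <;> linarith
      linarith
    have hr : |T / m - 1| < d := by
      have e1 : T / m - 1 = (T - m) / m := by field_simp
      rw [e1, abs_div, abs_of_pos hm0, div_lt_iff₀ hm0]
      have e2 : |T - m| ≤ η * T + 1 := by
        rw [abs_le] at hy ⊢
        constructor <;> linarith [hy.1, hy.2]
      have e3 : 8 ≤ d * T := by
        rw [div_le_iff₀ hd] at h4
        linarith
      have e4 : η * T ≤ d / 8 * T := mul_le_mul_of_nonneg_right hη2 hT.le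
      have e5 : d * (T / 2) ≤ d * m := mul_le_mul_of_nonneg_left (by linarith) hd.le
      nlinarith
    have hdr := hd' _ hr
    have hZ : T ^ (2 * k) * ‖riemannZeta (x + y * I)‖ ^ (2 * k) =
        (T / m) ^ (2 * k) * ‖Z1 (x + y * I)‖ ^ (2 * k) := by
      rw [Z1_of_ne hne, norm_mul, ← mul_pow, ← mul_pow]
      congr 1
      rw [← hm]
      field_simp
    rw [hZ]
    have e6 : ‖Z1 (x + y * I)‖ ^ (2 * k) - (T / m) ^ (2 * k) * ‖Z1 (x + y * I)‖ ^ (2 * k) =
        -(((T / m) ^ (2 * k) - 1) * ‖Z1 (x + y * I)‖ ^ (2 * k)) := by ring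
    rw [e6, abs_neg, abs_mul, abs_of_nonneg (by positivity : 0 ≤ ‖Z1 (x + y * I)‖ ^ (2 * k))]
    exact mul_le_mul_of_nonneg_right hdr (by positivity)
  set p : ℝ → ℝ := E.indicator (fun y => ‖Z1 (x + y * I)‖ ^ (2 * k)) with hp
  set q : ℝ → ℝ := E.indicator (fun y => T ^ (2 * k) * ‖riemannZeta (x + y * I)‖ ^ (2 * k)) with hq
  have hp0 : ∀ y, 0 ≤ p y := fun y => Set.indicator_nonneg (fun y _ => by positivity) y
  have hq0 : ∀ y, 0 ≤ q y := fun y => Set.indicator_nonneg (fun y _ => by positivity) y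
  have hloc := loc (2 * (2 * k)) (T := T) (U := U) (η := η) (κ := ε)
    (C₀ := T ^ (2 * k) * 180 ^ (2 * k)) h.1 hU h.2.2 hη0.le (by positivity)
    (p := p) (q := q)
    (((Z1_cont_line x).norm.pow _).aestronglyMeasurable.indicator hE)
    ((((zeta_line_cont (by linarith)).norm.pow _).aestronglyMeasurable.const_mul _).indicator hE)
    hp0
    (fun y => by
      rw [abs_of_nonneg (hp0 y)]
      have h5 : p y ≤ ‖Z1 (x + y * I)‖ ^ (2 * k) :=
        Set.indicator_le_self' (fun y _ => by positivity) y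
      refine (h5.trans (Z1_pow_bd k hx1 (by linarith) y)).trans ?_
      apply mul_le_mul_of_nonneg_right _ (by positivity)
      calc (45 : ℝ) ^ (2 * k) ≤ 180 ^ (2 * k) := by gcongr; norm_num
        _ ≤ T ^ (2 * k) * 180 ^ (2 * k) := le_mul_of_one_le_left (by positivity) hT1)
    (fun y => by
      rw [abs_of_nonneg (hq0 y)]
      have h5 : q y ≤ T ^ (2 * k) * ‖riemannZeta (x + y * I)‖ ^ (2 * k) :=
        Set.indicator_le_self' (fun y _ => by positivity) y
      refine h5.trans ?_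
      rw [mul_assoc]
      exact mul_le_mul_of_nonneg_left (zeta_pow_bd k hx1 hx2 y) (by positivity))
    (fun y hy => by
      by_cases hyE : y ∈ E
      · rw [hp, hq, Set.indicator_of_mem hyE, Set.indicator_of_mem hyE]
        exact hpq y hy
      · rw [hp, hq, Set.indicator_of_notMem hyE, Set.indicator_of_notMem hyE]
        simp)
  have e1 : ∫ y : ℝ, p y * wt T U y = ∫ y in E, ‖Z1 (x + y * I)‖ ^ (2 * k) * wt T U y := by
    rw [← integral_indicator hE]
    congr 1
    funext y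
    rw [hp]
    by_cases hyE : y ∈ E
    · rw [Set.indicator_of_mem hyE, Set.indicator_of_mem hyE]
    · rw [Set.indicator_of_notMem hyE, Set.indicator_of_notMem hyE, zero_mul]
  have e2 : ∫ y : ℝ, q y * wt T U y =
      T ^ (2 * k) * ∫ y in E, ‖riemannZeta (x + y * I)‖ ^ (2 * k) * wt T U y := by
    rw [← integral_const_mul, ← integral_indicator hE]
    congr 1
    funext y
    rw [hq]
    by_cases hyE : y ∈ E
    · rw [Set.indicator_of_mem hyE, Set.indicator_of_mem hyE]; ring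
    · rw [Set.indicator_of_notMem hyE, Set.indicator_of_notMem hyE, zero_mul]
  rw [e1, e2] at hloc
  have hb : 2 * (T ^ (2 * k) * 180 ^ (2 * k)) * (1 + T) ^ (2 * (2 * k)) * E' *
      (U * KK (2 * (2 * k))) ≤ ε * V0 k T U := by
    have e4 := hc' T U h
    have e5 : 2 * (T ^ (2 * k) * 180 ^ (2 * k)) * (1 + T) ^ (2 * (2 * k)) * E' *
        (U * KK (2 * (2 * k))) = (2 * 180 ^ (2 * k) * KK (2 * (2 * k)) / c *
          ((1 + T) ^ (2 * (2 * k)) * E')) * (c * (T ^ (2 * k) * U)) := by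
      field_simp
    rw [e5]
    calc _ ≤ ε * (c * (T ^ (2 * k) * U)) := mul_le_mul_of_nonneg_right h1.le (by positivity)
      _ ≤ ε * V0 k T U := mul_le_mul_of_nonneg_left e4 hε.le
  have h6 := (abs_le.mp hloc).1
  linarith


/-- the function whose zeros are the zeros of `ζ` on the critical line -/
def ff (T U y : ℝ) : ℂ := cexp (((Real.log T / 2 * y : ℝ) : ℂ) * I) *
  FF 1 T U (((1 / 2 : ℝ) : ℂ) + y * I)

/-- its derivative -/
def ff' (T U y : ℝ) : ℂ := cexp (((Real.log T / 2 * y : ℝ) : ℂ) * I) *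
  (I * deriv (FF 1 T U) (((1 / 2 : ℝ) : ℂ) + y * I) +
    ((Real.log T / 2 : ℝ) : ℂ) * I * FF 1 T U (((1 / 2 : ℝ) : ℂ) + y * I))

theorem ff_deriv (T U y : ℝ) : HasDerivAt (ff T U) (ff' T U y) y := by
  have h1 : HasDerivAt (fun y : ℝ => ((Real.log T / 2 * y : ℝ) : ℂ) * I)
      (((Real.log T / 2 : ℝ) : ℂ) * I) y := by
    have h2 : HasDerivAt (fun y : ℝ => Real.log T / 2 * y) (Real.log T / 2) y := by
      simpa using (hasDerivAt_id y).const_mul (Real.log T / 2)
    exact (h2.ofReal_comp).mul_const I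
  have h3 := h1.cexp.mul (ln_deriv (FF_differentiable 1 T U) (1 / 2) y)
  refine h3.congr_deriv ?_
  unfold ff' ln
  ring

theorem ff_norm (T U y : ℝ) : ‖ff T U y‖ = ‖FF 1 T U (((1 / 2 : ℝ) : ℂ) + y * I)‖ := by
  unfold ff
  rw [norm_mul, Complex.norm_exp_ofReal_mul_I, one_mul]

theorem ff'_norm (T U y : ℝ) : ‖ff' T U y‖ = ‖I * deriv (FF 1 T U) (((1 / 2 : ℝ) : ℂ) + y * I) +
    ((Real.log T / 2 : ℝ) : ℂ) * I * FF 1 T U (((1 / 2 : ℝ) : ℂ) + y * I)‖ := by
  unfold ff'
  rw [norm_mul, Complex.norm_exp_ofReal_mul_I, one_mul]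

theorem ff'_cont (T U : ℝ) : Continuous (ff' T U) := by
  have h1 : Continuous (deriv (FF 1 T U)) :=
    ((FF_differentiable 1 T U).contDiff (n := 1)).continuous_deriv le_rfl
  have h2 : Continuous (FF 1 T U) := (FF_differentiable 1 T U).continuous
  unfold ff'
  fun_prop

theorem ff_zero (T U y : ℝ) : ff T U y = 0 ↔ riemannZeta (1 / 2 + I * y) = 0 := by
  have e : (1 / 2 + I * (y : ℂ) : ℂ) = ((1 / 2 : ℝ) : ℂ) + y * I := by push_cast; ring
  have hne : ((1 / 2 : ℝ) : ℂ) + y * I ≠ 1 := ne_one_of_re (by norm_num) y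
  rw [e, ← norm_eq_zero, ff_norm, norm_eq_zero]
  unfold FF
  rw [pow_one, Z1_of_ne hne, mul_eq_zero, mul_eq_zero]
  constructor
  · rintro ((h | h) | h)
    · exact absurd (sub_eq_zero.1 h) hne
    · exact h
    · exact absurd h (Complex.exp_ne_zero _)
  · intro h
    exact Or.inl (Or.inr h)

theorem SG_eq (T U r : ℝ) : SG (ff T U) r = RZ.ShortG r := by
  unfold SG RZ.ShortG
  simp only [ff_zero]

theorem zeros_fin (T U R : ℝ) : ({x | x ∈ Icc (-R) R ∧ ff T U x = 0}).Finite := by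
  by_contra hcon
  have hinf : ({x | x ∈ Icc (-R) R ∧ ff T U x = 0}).Infinite := hcon
  obtain ⟨x, hx, hacc⟩ := hinf.exists_accPt_of_subset_isCompact (K := Icc (-R) R) isCompact_Icc
    (fun x hx => hx.1)
  set G : ℂ → ℂ := fun z => FF 1 T U ((1 / 2 : ℂ) + z * I) with hG
  have hGd : Differentiable ℂ G := (FF_differentiable 1 T U).comp (by fun_prop)
  have hfreq : ∃ᶠ z in 𝓝[≠] (x : ℂ), G z = 0 := by
    have q1 : ∃ᶠ y in 𝓝[≠] x, ff T U y = 0 := by
      rw [accPt_iff_frequently] at hacc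
      rw [frequently_nhdsWithin_iff]
      exact hacc.mono fun y hy => ⟨hy.2.2, hy.1⟩
    have q2 : Tendsto (fun y : ℝ => (y : ℂ)) (𝓝[≠] x) (𝓝[≠] (x : ℂ)) := by
      apply tendsto_nhdsWithin_of_tendsto_nhds_of_eventually_within
      · exact (Complex.continuous_ofReal.tendsto x).mono_left nhdsWithin_le_nhds
      · filter_upwards [self_mem_nhdsWithin] with y hy
        intro hcon
        exact hy (Complex.ofReal_injective hcon)
    refine q2.frequently (q1.mono fun y hy => ?_)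
    show G (y : ℂ) = 0
    rw [← norm_eq_zero, ff_norm, norm_eq_zero] at hy
    rw [hG]
    simp only
    convert hy using 2
    push_cast
    ring
  have hz := (hGd.differentiableOn.analyticOnNhd isOpen_univ).eqOn_zero_of_preconnected_of_frequently_eq_zero
    isPreconnected_univ (mem_univ _) hfreq
  have h2 : G (-(3 / 2) * I) = 0 := hz (mem_univ _)
  rw [hG] at h2
  simp only at h2
  have e : (1 / 2 : ℂ) + -(3 / 2) * I * I = 2 := by
    linear_combination (-(3 / 2 : ℂ)) * Complex.I_sq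
  rw [e] at h2
  unfold FF at h2
  rw [pow_one, Z1_of_ne (by norm_num), mul_eq_zero, mul_eq_zero] at h2
  rcases h2 with (h2 | h2) | h2
  · norm_num at h2
  · exact riemannZeta_ne_zero_of_one_lt_re (by norm_num) h2
  · exact Complex.exp_ne_zero _ h2

/-- **The short gaps.** -/
theorem short_FF {T U r : ℝ} (hA : Adm T U) (hr : 0 ≤ r) :
    ∫ y in RZ.ShortG r, ‖FF 1 T U (((1 / 2 : ℝ) : ℂ) + y * I)‖ ^ 2 ≤ (r / Real.pi) ^ 2 * En T U := by
  obtain ⟨M, δ, hM, hδ, hbd⟩ := FF_bd 1 T hA.pos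
  have hm : MeasurableSet (SG (ff T U) r) := by
    rw [SG_eq]
    exact RZ.ShortG_closed.measurableSet
  have hcl : IsClosed {x | ff T U x = 0} := by
    have : Continuous (ff T U) := continuous_iff_continuousAt.2
      (fun x => (ff_deriv T U x).continuousAt)
    exact isClosed_singleton.preimage this
  have i1 : Integrable (fun x => ‖ff T U x‖ ^ 2) := by
    have := ln_sq_integrable (FF_differentiable 1 T U) hδ hbd (x := 1 / 2) (by norm_num) (by norm_num)
    refine this.congr (Eventually.of_forall fun x => ?_)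
    simp only
    rw [ff_norm]
    rfl
  have i2 : Integrable (fun x => ‖ff' T U x‖ ^ 2) := by
    have := (der_planch (FF_differentiable 1 T U) hδ hM hbd (c := 1 / 2) (ρ := 1 / 4) (by norm_num)
      (by norm_num) (by norm_num) (Real.log T / 2)).1
    refine this.congr (Eventually.of_forall fun x => ?_)
    simp only
    rw [ff'_norm]
  have h := wirt_gaps (ff_deriv T U) (ff'_cont T U) hr hm hcl (zeros_fin T U) i1 i2
  rw [SG_eq] at h
  simp only [ff_norm, ff'_norm] at h
  exact h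

end

end Q63.LG
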