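import Pool.Agent.Q63.LG.Lo3
import Pool.Agent.Q97.MM.Cvg

/-!
# The variance of the limiting spectral measures
-/

set_option autoImplicit false

open MeasureTheory Filter Topology Complex Set FourierTransform ComplexConjugate
open Q97.MM

namespace Q63.LG

noncomputable section

/-- the normalised diagonal mass -/
def Rr (T U : ℝ) : ℝ := Real.sqrt Real.pi * T ^ 2 * U * (Real.log T / 2) / V0 1 T U

theorem Rr_nonneg {T U : ℝ} (hA : Adm T U) : 0 ≤ Rr T U := by
  have hT : 0 < T := by linarith [hA.1]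
  have hL : 0 < Real.log T := by linarith [hA.log]
  have := V0_pos 1 hA
  have := hA.pos
  unfold Rr
  positivity

theorem nuT_low {ε θ : ℝ} (hθ0 : 0 < θ) (hθ : θ < 2 * ε) (hθ1 : θ ≤ 1) {ψ : ℝ → ℝ}
    {B K : ℝ} (h : Tst ψ B K θ) {η : ℝ} (hη : 0 < η) :
    ∀ᶠ T : ℝ in atTop, ∀ U : ℝ, Adm T U → T ^ ε ≤ U →
      |(∫ u, ψ u ∂(nuT 1 T U)) - Rr T U * ∫ u in (0 : ℝ)..θ, ψ u| ≤ η * Rr T U := by
  filter_upwards [low hθ0 hθ hθ1 h (show 0 < η * (Real.sqrt Real.pi / 2) by positivity)]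
    with T hlow U hA hTU
  have hV := V0_pos 1 hA
  have h1 := hlow U hA hTU
  obtain ⟨hdc, hdi⟩ := dens_int hA
  unfold nuT
  rw [nu_int hdc hV h.cont]
  have e1 : ∫ ξ, dens (FF 1 T U) (1 / 2) ξ / VI (FF 1 T U) (1 / 2) *
      ψ (-(4 * Real.pi * ξ / Real.log T)) =
      (∫ ξ, ψ (-(4 * Real.pi * ξ / Real.log T)) * dens (FF 1 T U) (1 / 2) ξ) / V0 1 T U := by
    rw [← integral_div]
    refine integral_congr_ae (Eventually.of_forall fun ξ => ?_)
    simp only
    unfold V0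
    ring
  rw [e1]
  unfold Rr
  have e2 : (∫ ξ, ψ (-(4 * Real.pi * ξ / Real.log T)) * dens (FF 1 T U) (1 / 2) ξ) / V0 1 T U -
      Real.sqrt Real.pi * T ^ 2 * U * (Real.log T / 2) / V0 1 T U * ∫ u in (0 : ℝ)..θ, ψ u =
      ((∫ ξ, ψ (-(4 * Real.pi * ξ / Real.log T)) * dens (FF 1 T U) (1 / 2) ξ) -
        Real.sqrt Real.pi * T ^ 2 * U * (Real.log T / 2 * ∫ u in (0 : ℝ)..θ, ψ u)) / V0 1 T U := by
    ring
  rw [e2, abs_div, abs_of_pos hV, div_le_iff₀ hV]
  refine h1.trans (le_of_eq ?_)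
  field_simp

/-- the tent -/
def tent (θ s u : ℝ) : ℝ := max 0 (min 1 ((θ - u) / s))

theorem tent_tst {θ s : ℝ} (hs : 0 < s) : Tst (tent θ s) 1 (1 / s) θ where
  B0 := zero_le_one
  K0 := by positivity
  bd := fun u => by
    unfold tent
    rw [abs_of_nonneg (le_max_left _ _)]
    exact max_le zero_le_one (min_le_left _ _)
  lip := fun u v => by
    unfold tent
    have h0 := abs_max_sub_max_le_max (0 : ℝ) (min 1 ((θ - u) / s)) 0 (min 1 ((θ - v) / s))
    rw [sub_self, abs_zero] at h0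
    have h1 : |min 1 ((θ - u) / s) - min 1 ((θ - v) / s)| ≤ |(θ - u) / s - (θ - v) / s| := by
      have := abs_min_sub_min_le_max (1 : ℝ) ((θ - u) / s) 1 ((θ - v) / s)
      rw [sub_self, abs_zero] at this
      exact this.trans (max_le (abs_nonneg _) le_rfl)
    refine (h0.trans (max_le (abs_nonneg _) h1)).trans (le_of_eq ?_)
    have e : (θ - u) / s - (θ - v) / s = (v - u) / s := by ring
    rw [e, abs_div, abs_of_pos hs, abs_sub_comm]
    ring
  zero := fun u hu => by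
    unfold tent
    have h1 : (θ - u) / s ≤ 0 := div_nonpos_of_nonpos_of_nonneg (by linarith) hs.le
    rw [min_eq_right (by linarith), max_eq_left h1]

theorem tent_nonneg (θ s u : ℝ) : 0 ≤ tent θ s u := le_max_left _ _

theorem tent_le_one (θ s u : ℝ) : tent θ s u ≤ 1 := max_le zero_le_one (min_le_left _ _)

theorem tent_int {θ s : ℝ} (hs : 0 < s) (hsθ : s ≤ θ) :
    θ - s ≤ ∫ u in (0 : ℝ)..θ, tent θ s u := by
  have hc := (tent_tst (θ := θ) hs).cont
  have hii : ∀ x y : ℝ, IntervalIntegrable (tent θ s) volume x y :=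
    fun x y => hc.intervalIntegrable _ _
  rw [← intervalIntegral.integral_add_adjacent_intervals (hii 0 (θ - s)) (hii (θ - s) θ)]
  have h1 : ∫ u in (0 : ℝ)..(θ - s), tent θ s u = θ - s := by
    have h2 : ∫ u in (0 : ℝ)..(θ - s), tent θ s u = ∫ _u in (0 : ℝ)..(θ - s), (1 : ℝ) := by
      apply intervalIntegral.integral_congr
      intro u hu
      rw [uIcc_of_le (by linarith)] at hu
      unfold tent
      simp only
      have h3 : 1 ≤ (θ - u) / s := by
        rw [le_div_iff₀ hs]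
        linarith [hu.2]
      rw [min_eq_left h3, max_eq_right zero_le_one]
    rw [h2, intervalIntegral.integral_const, smul_eq_mul]
    ring
  have h4 : 0 ≤ ∫ u in (θ - s)..θ, tent θ s u :=
    intervalIntegral.integral_nonneg (by linarith) fun u _ => tent_nonneg _ _ _
  linarith

/-- the truncated square -/
def par (θ u : ℝ) : ℝ := (1 - max 0 (min u θ)) ^ 2 - (1 - θ) ^ 2

theorem clamp_mem {θ : ℝ} (hθ : 0 ≤ θ) (u : ℝ) : 0 ≤ max 0 (min u θ) ∧ max 0 (min u θ) ≤ θ :=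
  ⟨le_max_left _ _, max_le hθ (min_le_right _ _)⟩

theorem par_tst {θ : ℝ} (hθ : 0 ≤ θ) (hθ1 : θ ≤ 1) : Tst (par θ) 1 2 θ where
  B0 := zero_le_one
  K0 := by norm_num
  bd := fun u => by
    obtain ⟨h1, h2⟩ := clamp_mem hθ u
    unfold par
    rw [abs_le]
    constructor <;> nlinarith
  lip := fun u v => by
    obtain ⟨h1, h2⟩ := clamp_mem hθ u
    obtain ⟨h3, h4⟩ := clamp_mem hθ v
    unfold par
    set p := max 0 (min u θ) with hp
    set q := max 0 (min v θ) with hq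
    have e : (1 - p) ^ 2 - (1 - θ) ^ 2 - ((1 - q) ^ 2 - (1 - θ) ^ 2) = (2 - p - q) * (q - p) := by
      ring
    rw [e, abs_mul, abs_of_nonneg (by linarith)]
    have h5 : |q - p| ≤ |u - v| := by
      rw [abs_sub_comm]
      have h0 := abs_max_sub_max_le_max (0 : ℝ) (min u θ) 0 (min v θ)
      rw [sub_self, abs_zero] at h0
      have := abs_min_sub_min_le_max u θ v θ
      rw [sub_self, abs_zero] at this
      exact h0.trans (max_le (abs_nonneg _) (this.trans (max_le le_rfl (abs_nonneg _))))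
    have h6 : 2 - p - q ≤ 2 := by linarith
    exact mul_le_mul h6 h5 (abs_nonneg _) (by norm_num)
  zero := fun u hu => by
    unfold par
    rw [min_eq_right hu, max_eq_right hθ]
    ring

theorem par_nonneg {θ : ℝ} (hθ : 0 ≤ θ) (hθ1 : θ ≤ 1) (u : ℝ) : 0 ≤ par θ u := by
  obtain ⟨h1, h2⟩ := clamp_mem hθ u
  unfold par
  nlinarith

theorem par_int {θ : ℝ} (hθ : 0 ≤ θ) :
    ∫ u in (0 : ℝ)..θ, par θ u = θ ^ 2 - 2 / 3 * θ ^ 3 := by
  have h1 : ∫ u in (0 : ℝ)..θ, par θ u = ∫ u in (0 : ℝ)..θ, ((1 - (1 - θ) ^ 2) - 2 * u + u ^ 2) := by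
    apply intervalIntegral.integral_congr
    intro u hu
    rw [uIcc_of_le hθ] at hu
    unfold par
    simp only
    rw [min_eq_left hu.2, max_eq_right hu.1]
    ring
  rw [h1]
  have hi : ∀ f : ℝ → ℝ, Continuous f → IntervalIntegrable f volume 0 θ :=
    fun f hf => hf.intervalIntegrable _ _
  rw [intervalIntegral.integral_add (hi _ (by fun_prop)) (hi _ (by fun_prop)),
    intervalIntegral.integral_sub (hi _ (by fun_prop)) (hi _ (by fun_prop)),
    intervalIntegral.integral_const, intervalIntegral.integral_const_mul, integral_id, integral_pow]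
  simp only [smul_eq_mul]
  push_cast
  ring

theorem sq_le_par {θ : ℝ} (hθ : 0 ≤ θ) (hθ1 : θ ≤ 1) {u : ℝ} (hu : u ∈ Icc (0 : ℝ) 2) :
    (1 - u) ^ 2 ≤ (1 - θ) ^ 2 + par θ u + par θ (2 - u) := by
  have h1 := par_nonneg hθ hθ1 u
  have h2 := par_nonneg hθ hθ1 (2 - u)
  rcases le_total u θ with h | h
  · have e : par θ u = (1 - u) ^ 2 - (1 - θ) ^ 2 := by
      unfold par
      rw [min_eq_left h, max_eq_right hu.1]
    linarith
  · rcases le_total (2 - u) θ with h3 | h3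
    · have e : par θ (2 - u) = (1 - u) ^ 2 - (1 - θ) ^ 2 := by
        unfold par
        rw [min_eq_left h3, max_eq_right (by linarith [hu.2])]
        ring
      linarith
    · have : (1 - u) ^ 2 ≤ (1 - θ) ^ 2 := by
        apply sq_le_sq'
        · linarith
        · linarith
      linarith

/-- **The limits of the spectral measures of windows longer than a power.** -/
theorem limits {ε θ : ℝ} (hθ0 : 0 < θ) (hθ : θ < 2 * ε) (hθ1 : θ ≤ 1)
    {T U : ℕ → ℝ} (hT : Tendsto T atTop atTop)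
    (hU : ∀ j, 1 ≤ U j ∧ U j ≤ T j / Real.log (T j)) (hε : ∀ j, T j ^ ε ≤ U j) :
    ∃ φ : ℕ → ℕ, StrictMono φ ∧ ∃ ν : Measure ℝ, IsProbabilityMeasure ν ∧
      (∀ᵐ u ∂ν, u ∈ Icc (0 : ℝ) 2) ∧
      (∀ a : ℝ, Tendsto (fun j => Gn 1 (T (φ j)) (U (φ j)) a) atTop
        (𝓝 (∫ u, Real.exp (-(a * u)) ∂ν))) ∧
      ∫ u, (1 - u) ^ 2 ∂ν ≤ 1 - θ + θ ^ 2 / 3 ∧
      ∃ m : ℝ, Tendsto (fun j => Rr (T (φ j)) (U (φ j))) atTop (𝓝 m) ∧ m ≤ 1 / (2 * θ) := by
  obtain ⟨φ, hφ, ν, h0, h1, h2, h3, h4⟩ := seq_limit2 1 hT hU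
  have hsupp := supp_of_fe h1 h2 h3
  have hsymm := symm_of_fe h1 h3
  have hsupp' : ∀ᵐ u ∂(ν : Measure ℝ), u ∈ Icc (0 : ℝ) 2 := by
    rw [ae_iff]
    have e : {a : ℝ | ¬a ∈ Icc (0 : ℝ) 2} = (Icc 0 (2 * ((1 : ℕ) : ℝ)))ᶜ := by
      ext a
      simp
    rw [e]
    exact hsupp
  have hadm := hφ.tendsto_atTop.eventually (seq_adm hT hU)
  have hTφ : Tendsto (fun j => T (φ j)) atTop atTop := hT.comp hφ.tendsto_atTop
  -- the symmetry
  have hsy : ∀ f : ℝ → ℝ, Continuous f → ∫ u, f (2 - u) ∂(ν : Measure ℝ) = ∫ u, f u ∂(ν : Measure ℝ) := by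
    intro f hf
    have hm : Measurable (fun u : ℝ => 2 * ((1 : ℕ) : ℝ) - u) := by fun_prop
    conv_rhs => rw [← hsymm]
    rw [integral_map hm.aemeasurable hf.aestronglyMeasurable]
    simp
  -- test functions
  have hweak : ∀ {ψ : ℝ → ℝ} {B K : ℝ}, Tst ψ B K θ →
      Tendsto (fun j => ∫ u, ψ u ∂(nuT 1 (T (φ j)) (U (φ j)))) atTop
        (𝓝 (∫ u, ψ u ∂(ν : Measure ℝ))) := by
    intro ψ B K h
    exact h0 (BoundedContinuousFunction.ofNormedAddCommGroup ψ h.cont B h.bd)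
  have hlow : ∀ {ψ : ℝ → ℝ} {B K : ℝ}, Tst ψ B K θ → ∀ η : ℝ, 0 < η →
      ∀ᶠ j in atTop, |(∫ u, ψ u ∂(nuT 1 (T (φ j)) (U (φ j)))) -
        Rr (T (φ j)) (U (φ j)) * ∫ u in (0 : ℝ)..θ, ψ u| ≤ η * Rr (T (φ j)) (U (φ j)) := by
    intro ψ B K h η hη
    filter_upwards [hTφ.eventually (nuT_low hθ0 hθ hθ1 h hη), hadm] with j hj1 hj2
    exact hj1 _ hj2 (hε _)
  -- boundedness of `Rr`
  set τ := tent θ (θ / 2) with hτ
  have hτt : Tst τ 1 (1 / (θ / 2)) θ := tent_tst (by positivity)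
  set I0 := ∫ u in (0 : ℝ)..θ, τ u with hI0
  have hI0p : θ / 2 ≤ I0 := by
    have := tent_int (θ := θ) (s := θ / 2) (by positivity) (by linarith)
    linarith
  have hI0' : 0 < I0 := by linarith
  have hRbd : ∀ᶠ j in atTop, Rr (T (φ j)) (U (φ j)) ≤ 2 / I0 := by
    filter_upwards [hlow hτt (I0 / 2) (by positivity), hadm] with j hj1 hj2
    have hp := nuT_prob 1 hj2
    have hx : ∫ u, τ u ∂(nuT 1 (T (φ j)) (U (φ j))) ≤ 1 := by
      have := integral_mono_of_nonneg (μ := nuT 1 (T (φ j)) (U (φ j)))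
        (Eventually.of_forall fun u => tent_nonneg θ (θ / 2) u) (integrable_const (1 : ℝ))
        (Eventually.of_forall fun u => tent_le_one θ (θ / 2) u)
      rw [integral_const, probReal_univ, one_smul] at this
      exact this
    have hR := Rr_nonneg hj2
    have hj3 := (abs_le.mp hj1).1
    rw [le_div_iff₀ hI0']
    linarith
  have hconv : ∀ {ψ : ℝ → ℝ} {B K : ℝ}, Tst ψ B K θ →
      Tendsto (fun j => Rr (T (φ j)) (U (φ j)) * ∫ u in (0 : ℝ)..θ, ψ u) atTop
        (𝓝 (∫ u, ψ u ∂(ν : Measure ℝ))) := by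
    intro ψ B K h
    have key : Tendsto (fun j => (∫ u, ψ u ∂(nuT 1 (T (φ j)) (U (φ j)))) -
        Rr (T (φ j)) (U (φ j)) * ∫ u in (0 : ℝ)..θ, ψ u) atTop (𝓝 0) := by
      rw [Metric.tendsto_nhds]
      intro η hη
      filter_upwards [hlow h (η * I0 / 4) (by positivity), hRbd, hadm] with j hj1 hj2 hj3
      rw [Real.dist_eq, sub_zero]
      refine lt_of_le_of_lt hj1 ?_
      calc η * I0 / 4 * Rr (T (φ j)) (U (φ j)) ≤ η * I0 / 4 * (2 / I0) := by gcongr
        _ = η / 2 := by field_simp; norm_num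
        _ < η := by linarith
    have := (hweak h).sub key
    rw [sub_zero] at this
    refine this.congr fun j => ?_
    ring
  set m := (∫ u, τ u ∂(ν : Measure ℝ)) / I0 with hm
  have hRm : Tendsto (fun j => Rr (T (φ j)) (U (φ j))) atTop (𝓝 m) := by
    have := (hconv hτt).div_const I0
    refine this.congr fun j => ?_
    show Rr (T (φ j)) (U (φ j)) * I0 / I0 = _
    field_simp
  have hval : ∀ {ψ : ℝ → ℝ} {B K : ℝ}, Tst ψ B K θ →
      ∫ u, ψ u ∂(ν : Measure ℝ) = m * ∫ u in (0 : ℝ)..θ, ψ u := by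
    intro ψ B K h
    exact tendsto_nhds_unique (hconv h) (hRm.mul_const _)
  have hm0 : 0 ≤ m := ge_of_tendsto hRm (by
    filter_upwards [hadm] with j hj using Rr_nonneg hj)
  have hint : ∀ {ψ : ℝ → ℝ} {B K : ℝ}, Tst ψ B K θ → Integrable ψ (ν : Measure ℝ) := by
    intro ψ B K h
    exact (integrable_const B).mono' h.cont.aestronglyMeasurable (Eventually.of_forall h.bd)
  have hmle : m ≤ 1 / (2 * θ) := by
    have hall : ∀ s : ℝ, 0 < s → s ≤ θ → m * (θ - s) ≤ 1 / 2 := by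
      intro s hs hsθ
      have ht := tent_tst (θ := θ) hs
      have g1 := hval ht
      have g2 := tent_int hs hsθ
      have g3 : ∫ u, tent θ s u ∂(ν : Measure ℝ) ≤ 1 / 2 := by
        have g4 := hsy _ ht.cont
        have g5 : Integrable (fun u => tent θ s (2 - u)) (ν : Measure ℝ) :=
          (integrable_const (1 : ℝ)).mono' (ht.cont.comp (by fun_prop)).aestronglyMeasurable
            (Eventually.of_forall fun u => ht.bd _)
        have g6 : ∫ u, (tent θ s u + tent θ s (2 - u)) ∂(ν : Measure ℝ) ≤ ∫ _u, (1 : ℝ) ∂(ν : Measure ℝ) := by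
          apply integral_mono ((hint ht).add g5) (integrable_const _)
          intro u
          show tent θ s u + tent θ s (2 - u) ≤ 1
          rcases le_total θ u with hu | hu
          · rw [ht.zero u hu, zero_add]
            exact tent_le_one _ _ _
          · rw [ht.zero (2 - u) (by linarith), add_zero]
            exact tent_le_one _ _ _
        rw [integral_add (hint ht) g5, g4, integral_const, probReal_univ, one_smul] at g6
        linarith
      calc m * (θ - s) ≤ m * ∫ u in (0 : ℝ)..θ, tent θ s u := mul_le_mul_of_nonneg_left g2 hm0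
        _ = ∫ u, tent θ s u ∂(ν : Measure ℝ) := g1.symm
        _ ≤ 1 / 2 := g3
    have hlim : Tendsto (fun s : ℝ => m * (θ - s)) (𝓝[>] 0) (𝓝 (m * (θ - 0))) := by
      apply Tendsto.mono_left _ nhdsWithin_le_nhds
      exact Continuous.tendsto (by fun_prop) 0
    have hle := le_of_tendsto hlim (by
      filter_upwards [Ioc_mem_nhdsGT hθ0] with s hs using hall s hs.1 hs.2)
    rw [sub_zero] at hle
    rw [le_div_iff₀ (by positivity)]
    linarith
  refine ⟨φ, hφ, ν, inferInstance, hsupp', h4, ?_, m, hRm, hmle⟩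
  -- the variance
  have hp := par_tst hθ0.le hθ1
  have g5 : Integrable (fun u => par θ (2 - u)) (ν : Measure ℝ) :=
    (integrable_const (1 : ℝ)).mono' (hp.cont.comp (by fun_prop)).aestronglyMeasurable
      (Eventually.of_forall fun u => hp.bd _)
  have g6 : ∫ u, (1 - u) ^ 2 ∂(ν : Measure ℝ) ≤
      ∫ u, ((1 - θ) ^ 2 + par θ u + par θ (2 - u)) ∂(ν : Measure ℝ) := by
    apply integral_mono_of_nonneg (Eventually.of_forall fun u => by positivity)
      (((integrable_const _).add (hint hp)).add g5)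
    filter_upwards [hsupp'] with u hu using sq_le_par hθ0.le hθ1 hu
  have g7 : ∫ u, ((1 - θ) ^ 2 + par θ u + par θ (2 - u)) ∂(ν : Measure ℝ) =
      (1 - θ) ^ 2 + 2 * (m * (θ ^ 2 - 2 / 3 * θ ^ 3)) := by
    have i1 : Integrable (fun u => (1 - θ) ^ 2 + par θ u) (ν : Measure ℝ) :=
      (integrable_const _).add (hint hp)
    rw [integral_add i1 g5,
      integral_add (integrable_const _) (hint hp), hsy _ hp.cont, hval hp, par_int hθ0.le,
      integral_const, probReal_univ, one_smul]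
    ring
  have g8 : 0 ≤ θ ^ 2 - 2 / 3 * θ ^ 3 := by nlinarith [sq_nonneg θ]
  have g9 : m * (θ ^ 2 - 2 / 3 * θ ^ 3) ≤ 1 / (2 * θ) * (θ ^ 2 - 2 / 3 * θ ^ 3) :=
    mul_le_mul_of_nonneg_right hmle g8
  have g10 : (1 - θ) ^ 2 + 2 * (1 / (2 * θ) * (θ ^ 2 - 2 / 3 * θ ^ 3)) = 1 - θ + θ ^ 2 / 3 := by
    field_simp
    ring
  linarith

end

end Q63.LG
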